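import Mathlib

/-!
Decompositions of real vectors in rational vectors with the same signs.
-/

set_option autoImplicit false
set_option maxHeartbeats 400000

namespace Pool.Agent.H172.RP

open Filter Topology

theorem exists_pq (f : ℝ) {ε : ℝ} (hε : 0 < ε) : ∃ (p q : ℚ) (l : ℝ), 0 < l ∧ l < 1 ∧
    l * p + (1 - l) * q = f ∧ |(p : ℝ) - f| < ε ∧ |(q : ℝ) - f| < ε := by
  obtain ⟨p, hp1, hp2⟩ := exists_rat_btwn (show f - ε < f by linarith)
  obtain ⟨q, hq1, hq2⟩ := exists_rat_btwn (show f < f + ε by linarith)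
  have hd : (0 : ℝ) < q - p := by linarith
  refine ⟨p, q, (q - f) / (q - p), div_pos (by linarith) hd, ?_, ?_, ?_, ?_⟩
  · rw [div_lt_one hd]
    linarith
  · field_simp
    ring
  · rw [abs_lt]
    constructor <;> linarith
  · rw [abs_lt]
    constructor <;> linarith

/-- the weights of the vertices of a box -/
theorem box_sum {B : Type} [Fintype B] [DecidableEq B] (l p q : B → ℝ) :
    ∑ σ : B → Bool, ∏ o, (if σ o then l o else 1 - l o) = 1 ∧
    ∀ o0, ∑ σ : B → Bool, (∏ o, (if σ o then l o else 1 - l o)) * (if σ o0 then p o0 else q o0) =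
      l o0 * p o0 + (1 - l o0) * q o0 := by
  have key : ∀ F : B → Bool → ℝ, ∑ σ : B → Bool, ∏ o, F o (σ o) = ∏ o, (F o true + F o false) := by
    intro F
    have h1 := Finset.prod_univ_sum (fun _ : B => (Finset.univ : Finset Bool)) F
    rw [Fintype.piFinset_univ] at h1
    rw [← h1]
    exact Finset.prod_congr rfl fun o _ => by rw [Fintype.sum_bool]
  constructor
  · have h1 := key fun o x => if x then l o else 1 - l o
    rw [h1]
    simp
  · intro o0
    have h1 := key fun o x => (if x then l o else 1 - l o) *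
      (if o = o0 then (if x then p o0 else q o0) else 1)
    have h2 : ∀ σ : B → Bool, (∏ o, (if σ o then l o else 1 - l o)) *
        (if σ o0 then p o0 else q o0) = ∏ o, ((if σ o then l o else 1 - l o) *
          (if o = o0 then (if σ o then p o0 else q o0) else 1)) := by
      intro σ
      rw [Finset.prod_mul_distrib]
      congr 1
      rw [Finset.prod_eq_single o0]
      · simp
      · intro o _ ho
        rw [if_neg ho]
      · intro h
        exact absurd (Finset.mem_univ _) h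
    rw [Finset.sum_congr rfl fun σ _ => h2 σ, h1, Finset.prod_eq_single o0]
    · simp
    · intro o _ ho
      simp [ho]
    · intro h
      exact absurd (Finset.mem_univ _) h

/-- **Rational decompositions.** -/
theorem rat_dec {ι κ : Type} [Fintype ι] [Fintype κ] (b : ι → ℝ) (c : κ → ι → ℚ) (γ : κ → ℚ) :
    ∃ (M : ℕ) (r : Fin M → ℝ) (bq : Fin M → ι → ℚ), 0 < M ∧ (∀ σ, 0 < r σ) ∧ ∑ σ, r σ = 1 ∧
      (∀ s, b s = ∑ σ, r σ * bq σ s) ∧
      ∀ k σ, ((0 : ℝ) < γ k + ∑ s, (c k s : ℝ) * b s → 0 < γ k + ∑ s, c k s * bq σ s) ∧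
        ((γ k : ℝ) + ∑ s, (c k s : ℝ) * b s = 0 → γ k + ∑ s, c k s * bq σ s = 0) ∧
        ((γ k : ℝ) + ∑ s, (c k s : ℝ) * b s < 0 → γ k + ∑ s, c k s * bq σ s < 0) := by
  classical
  let g : Option ι → ℝ := fun o => o.elim 1 b
  obtain ⟨B, -, hB1, hB2, hB3⟩ := exists_linearIndepOn_extension (K := ℚ) (v := g) (s := {none})
    (t := Set.univ) (LinearIndepOn.singleton (R := ℚ) (show g none ≠ 0 from one_ne_zero))
    (Set.subset_univ _)
  have hfin : Fintype B := Fintype.ofFinite B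
  let f : B → ℝ := fun o => g o.1
  obtain ⟨o0, ho0⟩ : ∃ o0 : B, f o0 = 1 := ⟨⟨none, hB1 rfl⟩, rfl⟩
  have hind : LinearIndependent ℚ f := hB3
  have hspan : ∀ s, ∃ Q : B → ℚ, ∑ o, Q o • f o = b s := by
    intro s
    have h1 : g (some s) ∈ Submodule.span ℚ (g '' B) := hB2 ⟨some s, Set.mem_univ _, rfl⟩
    rw [Set.image_eq_range] at h1
    exact (Submodule.mem_span_range_iff_exists_fun ℚ).1 h1
  choose Q hQ using hspan
  let C : κ → B → ℚ := fun k o => (if o = o0 then γ k else 0) + ∑ s, c k s * Q s o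
  have hC : ∀ (x : B → ℝ), x o0 = 1 → ∀ k, (γ k : ℝ) + ∑ s, (c k s : ℝ) * ∑ o, (Q s o : ℝ) * x o =
      ∑ o, (C k o : ℝ) * x o := by
    intro x hx k
    have h1 : ∀ o, (C k o : ℝ) * x o = (if o = o0 then (γ k : ℝ) else 0) * x o +
        ∑ s, (c k s : ℝ) * ((Q s o : ℝ) * x o) := by
      intro o
      simp only [C]
      push_cast
      rw [add_mul, Finset.sum_mul]
      congr 1
      · split_ifs <;> simp
      · exact Finset.sum_congr rfl fun s _ => by ring
    rw [Finset.sum_congr rfl fun o _ => h1 o, Finset.sum_add_distrib]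
    congr 1
    · rw [Finset.sum_eq_single o0]
      · rw [if_pos rfl, hx, mul_one]
      · intro o _ ho
        rw [if_neg ho, zero_mul]
      · intro h
        exact absurd (Finset.mem_univ _) h
    · rw [Finset.sum_comm]
      exact Finset.sum_congr rfl fun s _ => by rw [Finset.mul_sum]
  have hb : ∀ s, b s = ∑ o, (Q s o : ℝ) * f o := by
    intro s
    rw [← hQ s]
    exact Finset.sum_congr rfl fun o _ => by rw [Rat.smul_def]
  have hL : ∀ k, (γ k : ℝ) + ∑ s, (c k s : ℝ) * b s = ∑ o, (C k o : ℝ) * f o := by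
    intro k
    rw [← hC f ho0 k]
    congr 1
    exact Finset.sum_congr rfl fun s _ => by rw [← hb s]
  -- the radius
  obtain ⟨ε, hε0, hε⟩ : ∃ ε : ℝ, 0 < ε ∧ ∀ k, ∑ o, (C k o : ℝ) * f o ≠ 0 →
      (∑ o, |(C k o : ℝ)|) * ε < |∑ o, (C k o : ℝ) * f o| := by
    have h1 : ∀ᶠ ε in 𝓝[>] (0 : ℝ), ∀ k, ∑ o, (C k o : ℝ) * f o ≠ 0 →
        (∑ o, |(C k o : ℝ)|) * ε < |∑ o, (C k o : ℝ) * f o| := by
      rw [eventually_all]
      intro k
      by_cases hk : ∑ o, (C k o : ℝ) * f o = 0
      · exact Eventually.of_forall fun ε h => absurd hk h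
      · have h2 : Tendsto (fun ε : ℝ => (∑ o, |(C k o : ℝ)|) * ε) (𝓝[>] 0) (𝓝 0) := by
          have h3 : Tendsto (fun ε : ℝ => (∑ o, |(C k o : ℝ)|) * ε) (𝓝 0)
              (𝓝 ((∑ o, |(C k o : ℝ)|) * 0)) := (continuous_const.mul continuous_id).tendsto 0
          rw [mul_zero] at h3
          exact h3.mono_left nhdsWithin_le_nhds
        have h4 := h2.eventually (gt_mem_nhds (abs_pos.2 hk))
        filter_upwards [h4] with ε h5 _ using h5
    obtain ⟨ε, h2, h3⟩ := (h1.and self_mem_nhdsWithin).exists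
    exact ⟨ε, h3, h2⟩
  -- the box
  have hbox : ∀ o : B, ∃ (p q : ℚ) (l : ℝ), 0 < l ∧ l < 1 ∧ l * p + (1 - l) * q = f o ∧
      |(p : ℝ) - f o| < ε ∧ |(q : ℝ) - f o| < ε ∧ (o = o0 → p = 1 ∧ q = 1) := by
    intro o
    by_cases ho : o = o0
    · refine ⟨1, 1, 1 / 2, by norm_num, by norm_num, ?_, ?_, ?_, fun _ => ⟨rfl, rfl⟩⟩
      · rw [ho, ho0]
        norm_num
      · rw [ho, ho0]
        simpa using hε0
      · rw [ho, ho0]
        simpa using hε0
    · obtain ⟨p, q, l, h1, h2, h3, h4, h5⟩ := exists_pq (f o) hε0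
      exact ⟨p, q, l, h1, h2, h3, h4, h5, fun h => absurd h ho⟩
  choose p q l hl0 hl1 hlf hpε hqε hpq using hbox
  let x : (B → Bool) → B → ℚ := fun σ o => if σ o then p o else q o
  have hx0 : ∀ σ, x σ o0 = 1 := by
    intro σ
    simp only [x]
    split_ifs
    · exact (hpq o0 rfl).1
    · exact (hpq o0 rfl).2
  have hxε : ∀ σ o, |(x σ o : ℝ) - f o| < ε := by
    intro σ o
    simp only [x]
    split_ifs
    · exact hpε o
    · exact hqε o
  let w : (B → Bool) → ℝ := fun σ => ∏ o, (if σ o then l o else 1 - l o)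
  have hw0 : ∀ σ, 0 < w σ := by
    intro σ
    refine Finset.prod_pos fun o _ => ?_
    split_ifs
    · exact hl0 o
    · linarith [hl1 o]
  obtain ⟨hw1, hw2⟩ := box_sum l (fun o => (p o : ℝ)) (fun o => (q o : ℝ))
  have hwx : ∀ o, ∑ σ, w σ * (x σ o : ℝ) = f o := by
    intro o
    rw [← hlf o, ← hw2 o]
    refine Finset.sum_congr rfl fun σ _ => ?_
    simp only [w, x]
    congr 1
    split_ifs <;> rfl
  let bq : (B → Bool) → ι → ℚ := fun σ s => ∑ o, Q s o * x σ o
  have hbq : ∀ s, b s = ∑ σ, w σ * (bq σ s : ℝ) := by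
    intro s
    rw [hb s]
    simp only [bq]
    push_cast
    simp_rw [Finset.mul_sum]
    rw [Finset.sum_comm]
    refine Finset.sum_congr rfl fun o _ => ?_
    rw [← hwx o, Finset.mul_sum]
    exact Finset.sum_congr rfl fun σ _ => by ring
  have hsgn : ∀ k σ, ((γ k + ∑ s, c k s * bq σ s : ℚ) : ℝ) = ∑ o, (C k o : ℝ) * (x σ o : ℝ) := by
    intro k σ
    rw [← hC (fun o => (x σ o : ℝ)) (by rw [hx0]; norm_num) k]
    simp only [bq]
    push_cast
    rfl
  have hdiff : ∀ k σ, |∑ o, (C k o : ℝ) * (x σ o : ℝ) - ∑ o, (C k o : ℝ) * f o| ≤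
      (∑ o, |(C k o : ℝ)|) * ε := by
    intro k σ
    rw [← Finset.sum_sub_distrib, Finset.sum_mul]
    refine (Finset.abs_sum_le_sum_abs _ _).trans (Finset.sum_le_sum fun o _ => ?_)
    rw [← mul_sub, abs_mul]
    exact mul_le_mul_of_nonneg_left (hxε σ o).le (abs_nonneg _)
  let E := Fintype.equivFin (B → Bool)
  refine ⟨Fintype.card (B → Bool), fun i => w (E.symm i), fun i => bq (E.symm i),
    Fintype.card_pos, fun i => hw0 _, ?_, fun s => ?_, fun k i => ?_⟩
  · rw [Equiv.sum_comp E.symm w]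
    exact hw1
  · rw [Equiv.sum_comp E.symm fun σ => w σ * (bq σ s : ℝ)]
    exact hbq s
  · rw [hL k]
    have h1 := hsgn k (E.symm i)
    have h2 := hdiff k (E.symm i)
    refine ⟨fun h => ?_, fun h => ?_, fun h => ?_⟩
    · have h3 := hε k h.ne'
      rw [abs_of_pos h] at h3
      rw [abs_le] at h2
      have h4 : (0 : ℝ) < ((γ k + ∑ s, c k s * bq (E.symm i) s : ℚ) : ℝ) := by
        rw [h1]
        linarith [h2.1]
      exact_mod_cast h4
    · have h3 : ∀ o, C k o = 0 := by
        have h4 : ∑ o, C k o • f o = 0 := by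
          rw [← h]
          exact Finset.sum_congr rfl fun o _ => by rw [Rat.smul_def]
        exact Fintype.linearIndependent_iff.1 hind (C k) h4
      have h4 : ((γ k + ∑ s, c k s * bq (E.symm i) s : ℚ) : ℝ) = 0 := by
        rw [h1]
        exact Finset.sum_eq_zero fun o _ => by rw [h3 o, Rat.cast_zero, zero_mul]
      exact_mod_cast h4
    · have h3 := hε k h.ne
      rw [abs_of_neg h] at h3
      rw [abs_le] at h2
      have h4 : ((γ k + ∑ s, c k s * bq (E.symm i) s : ℚ) : ℝ) < 0 := by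
        rw [h1]
        linarith [h2.2]
      exact_mod_cast h4

end Pool.Agent.H172.RP
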