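import Pool.Agent.H172.RP.Top

/-!
Pairs with real coefficients: the final form.
-/

set_option autoImplicit false
set_option linter.overlappingInstances false
set_option linter.unusedSectionVars false
set_option maxHeartbeats 1000000

open FF MvPolynomial Pool.Agent.W603.LV Pool.Agent.W602.GT Pool.Agent.W602.Cov
open Pool.Agent.TH756.PR Pool.Agent.TH122.AB Pool.Agent.TH756.PN Pool.Agent.Y169.CH
open Pool.Agent.H172.EG Pool.Agent.H172.LG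

namespace Pool.Agent.H172.RP

variable {r R : ℕ} {n : Fin r → ℕ} {K : Type} [Field K] [Algebra ℂ K] {d : ℕ}
  {e : ((i : Fin r) × Fin (n i)) ≃ Fin (d + 1)}

/-- **The asymptotic orders.** -/
theorem asym_real (hn : ∀ i, 1 ≤ n i) {x : ∀ i, Fin (n i + 1) → K} (hx0 : ∀ i, x i 0 ≠ 0)
    (hbas : IsTranscendenceBasis ℂ (uu e x)) {F : ∀ i, MvPolynomial (Fin (n i + 1)) ℂ}
    {dF : Fin r → ℕ} (hdF : ∀ i, 1 ≤ dF i) (hs : ∀ i, SmF (F i))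
    (hh : ∀ i, (F i).IsHomogeneous (dF i)) {z : Fin R → K}
    {M : Fin R → ℕ} (hM : ∀ j, 0 < M j) {a : Fin R → Fin r → ℕ}
    (hz : ∀ j, z j ^ M j = ∏ i, (aeval (x i) (F i) / x i 0 ^ dF i) ^ a j i)
    (hdiv : ∀ j i, M j ∣ a j i * dF i)
    (hgen : IntermediateField.adjoin ℂ (Set.range (uu e x) ∪ Set.range z) = ⊤)
    {δ : (Fin r → ℕ) → ℝ} (hδ : ∀ v, δ v ≤ 1) {rays : Finset (Fin r → ℕ)}
    (hrays : ∀ v ∈ rays, Prim M a v) (hoff : ∀ v, v ∉ rays → δ v = 1)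
    (hpos : ∀ v, Prim M a v → 1 - δ v ≤ ∑ i, (((dF i : ℝ) - n i - 1) / dF i) * v i) :
    ∃ (m0 : ℕ) (c : Fin m0 → ℝ) (τ : Fin m0 → (Fin r → ℕ) → ℚ) (E : ℕ), (∀ σ, 0 < c σ) ∧
      ∑ σ, c σ = 1 ∧ (∀ v, δ v = ∑ σ, c σ * τ σ v) ∧ (∀ σ v, τ σ v ≤ 1) ∧
      (∀ σ v, δ v = 1 → τ σ v = 1) ∧ 1 ≤ E ∧
      ∃ (k : Fin m0 → ℕ) (s : ∀ σ, Fin (k σ) → (Fin (d + 1) → Derivation ℂ K K) → K),
        (∀ σ b, s σ b ≠ 0) ∧
        (∀ σ b, LSec e x F dF (fun v => (τ σ v : ℝ)) {1} E 1 (s σ b)) ∧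
        ∀ P : Place ℂ K, ∃ b : ∀ σ, Fin (k σ),
          (∀ (m : ℕ) (ω : (Fin (d + 1) → Derivation ℂ K K) → K), 1 ≤ m →
            LSec e x F dF δ {1} m 1 ω → ∀ Dv, ω Dv ≠ 0 → (∀ σ, s σ (b σ) Dv ≠ 0) ∧
              (m : ℝ) * ∑ σ, c σ * P.ord (s σ (b σ) Dv) ≤ E * P.ord (ω Dv)) ∧
          ∀ S : Finset K, ∃ C : ℕ, ∀ (m : ℕ) (ω : (Fin (d + 1) → Derivation ℂ K K) → K), 1 ≤ m →
            LSec e x F dF δ S m 1 ω → ∀ Dv, ω Dv ≠ 0 → (∀ σ, s σ (b σ) Dv ≠ 0) ∧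
              (m : ℝ) * ∑ σ, c σ * P.ord (s σ (b σ) Dv) ≤ E * P.ord (ω Dv) + C := by
  classical
  obtain ⟨Θ, rfl, rfl, h3, h4⟩ := exists_fin e hn hx0 hbas hdF hs hh hM hz hdiv hgen
  obtain ⟨L, hL⟩ : ∃ L, L = ∏ j, Θ.C.M j := ⟨_, rfl⟩
  have hL0 : 1 ≤ L := by
    have h1 : 0 < ∏ j, Θ.C.M j := Finset.prod_pos fun j _ => hM j
    omega
  choose u hu1 hu2 using fun i => exists_unit (a := Θ.C.a) (M := Θ.C.M) hL0 (fun j => by
    rw [hL]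
    exact Finset.dvd_prod_of_mem Θ.C.M (Finset.mem_univ j)) i
  let T : Finset (Fin r → ℕ) := rays ∪ Finset.univ.image fun i t => if t = i then u i else 0
  have hT : ∀ v ∈ T, Prim Θ.C.M Θ.C.a v := by
    intro v hv
    rcases Finset.mem_union.1 hv with h5 | h5
    · exact hrays v h5
    · obtain ⟨i, -, rfl⟩ := Finset.mem_image.1 h5
      exact hu2 i
  obtain ⟨m0, c, τ, E, -, hc0, hc1, hτ1, hτ2, hτ3, hE, k, s, -, ⟨D0, hs0⟩, hs1, hs2⟩ :=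
    topQ Θ (ρ := fun v : T => v.1) (fun v => hT v.1 v.2) Subtype.val_injective (fun i => by
      refine ⟨⟨fun t => if t = i then u i else 0, Finset.mem_union_right _
        (Finset.mem_image_of_mem _ (Finset.mem_univ i))⟩, ?_, fun t ht => if_neg ht⟩
      dsimp only
      rw [if_pos rfl]
      intro h0
      apply (hu2 i).1.1
      funext t
      rw [h0]
      simp) hδ (fun v hv => by
      refine hoff v fun hvr => hv ⟨v, Finset.mem_union_left _ hvr⟩ rfl)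
    (fun v => hpos _ (hT v.1 v.2))
  refine ⟨m0, c, τ, E, hc0, hc1, hτ1, hτ2, hτ3, hE, k, s,
    fun σ b h0 => hs0 σ b (by rw [h0]; rfl), fun σ b => h4 _ _ _ _ (hs1 σ b), fun P => ?_⟩
  obtain ⟨b, hb1, hb2⟩ := hs2 P
  refine ⟨b, fun m ω hm hω => hb1 m ω hm ?_, fun S => ?_⟩
  · have h5 := h3 _ _ _ _ _ hω
    rwa [Cvr.pw_one] at h5
  · obtain ⟨C, hC⟩ := hb2 S
    refine ⟨C, fun m ω hm hω => hC m ω hm ?_⟩
    have h5 := h3 _ _ _ _ _ hω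
    rwa [Cvr.pw_one] at h5

end Pool.Agent.H172.RP
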