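import Pool.Agent.H172.RP.Kod

/-!
The Iitaka dimension and the numerical dimension: the final form.
-/

set_option autoImplicit false
set_option linter.overlappingInstances false
set_option linter.unusedSectionVars false
set_option maxHeartbeats 1000000

open FF MvPolynomial Pool.Agent.W603.LV Pool.Agent.W602.GT Pool.Agent.W602.Cov
open Pool.Agent.TH756.PR Pool.Agent.TH122.AB Pool.Agent.TH756.PN Pool.Agent.Y169.CH
open Pool.Agent.H172.EG Pool.Agent.H172.LG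

namespace Pool.Agent.H172.RP

variable {r R : ℕ} {n : Fin r → ℕ} {K : Type} [Field K] [Algebra ℂ K] {d : ℕ}
  {e : ((i : Fin r) × Fin (n i)) ≃ Fin (d + 1)}

/-- **The dimensions.** -/
theorem dims_real (hn : ∀ i, 1 ≤ n i) {x : ∀ i, Fin (n i + 1) → K} (hx0 : ∀ i, x i 0 ≠ 0)
    (hbas : IsTranscendenceBasis ℂ (uu e x)) {F : ∀ i, MvPolynomial (Fin (n i + 1)) ℂ}
    {dF : Fin r → ℕ} (hdF : ∀ i, 1 ≤ dF i) (hs : ∀ i, SmF (F i))
    (hh : ∀ i, (F i).IsHomogeneous (dF i)) {z : Fin R → K}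
    {M : Fin R → ℕ} (hM : ∀ j, 0 < M j) {a : Fin R → Fin r → ℕ}
    (hz : ∀ j, z j ^ M j = ∏ i, (aeval (x i) (F i) / x i 0 ^ dF i) ^ a j i)
    (hdiv : ∀ j i, M j ∣ a j i * dF i)
    (hgen : IntermediateField.adjoin ℂ (Set.range (uu e x) ∪ Set.range z) = ⊤)
    {δ : (Fin r → ℕ) → ℝ} (hδ : ∀ v, δ v ≤ 1) {rays : Finset (Fin r → ℕ)}
    (hrays : ∀ v ∈ rays, Prim M a v) (hoff : ∀ v, v ∉ rays → δ v = 1)
    (hpos : ∀ v, Prim M a v → 1 - δ v ≤ ∑ i, (((dF i : ℝ) - n i - 1) / dF i) * v i)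
    (I : Finset (Fin r)) (hI : ∀ t, t ∈ I ↔ ∀ v, Prim M a v → v t ≠ 0 →
      1 - δ v < ∑ i, (((dF i : ℝ) - n i - 1) / dF i) * v i) :
    (∃ E : ℕ, 1 ≤ E ∧ ∃ ω : Fin ((∑ t ∈ I, n t) + 1) → (Fin (d + 1) → Derivation ℂ K K) → K,
      (∀ b, LSec e x F dF δ {1} E 1 (ω b)) ∧
      ∃ D0, ω 0 D0 ≠ 0 ∧
        AlgebraicIndependent ℂ fun b : Fin (∑ t ∈ I, n t) => ω b.succ D0 / ω 0 D0) ∧
    ∀ S : Finset K, ∃ C1 : ℕ, ∀ (m N : ℕ), 1 ≤ m →
      ∀ ω : Fin N → (Fin (d + 1) → Derivation ℂ K K) → K,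
      LinearIndependent ℂ ω → (∀ l, LSec e x F dF δ S m 1 (ω l)) →
      N ≤ C1 * m ^ (∑ t ∈ I, n t) := by
  classical
  obtain ⟨Θ, rfl, rfl, h3, h4⟩ := exists_fin e hn hx0 hbas hdF hs hh hM hz hdiv hgen
  constructor
  · obtain ⟨L, hL⟩ : ∃ L, L = ∏ j, Θ.C.M j := ⟨_, rfl⟩
    have hL0 : 1 ≤ L := by
      have h1 : 0 < ∏ j, Θ.C.M j := Finset.prod_pos fun j _ => hM j
      omega
    choose u hu1 hu2 using fun i => exists_unit (a := Θ.C.a) (M := Θ.C.M) hL0 (fun j => by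
      rw [hL]
      exact Finset.dvd_prod_of_mem Θ.C.M (Finset.mem_univ j)) i
    let T : Finset (Fin r → ℕ) := rays ∪ Finset.univ.image fun i t => if t = i then u i else 0
    have hT : ∀ v ∈ T, Prim Θ.C.M Θ.C.a v := by
      intro v hv
      rcases Finset.mem_union.1 hv with h5 | h5
      · exact hrays v h5
      · obtain ⟨i, -, rfl⟩ := Finset.mem_image.1 h5
        exact hu2 i
    obtain ⟨E, hE, ω, hω, D0, h5, h6⟩ := kod_geR Θ (ρ := fun v : T => v.1) (fun i => by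
        refine ⟨⟨fun t => if t = i then u i else 0, Finset.mem_union_right _
          (Finset.mem_image_of_mem _ (Finset.mem_univ i))⟩, ?_, fun t ht => if_neg ht⟩
        dsimp only
        rw [if_pos rfl]
        intro h0
        apply (hu2 i).1.1
        funext t
        rw [h0]
        simp) hδ (fun v hv => by
        refine hoff v fun hvr => hv ⟨v, Finset.mem_union_left _ hvr⟩ rfl)
      (fun v => hpos _ (hT v.1 v.2)) I (fun t ht v hv => (hI t).1 ht _ (hT v.1 v.2) hv)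
    exact ⟨E, hE, ω, fun b => h4 _ _ _ _ (hω b), D0, h5, h6⟩
  · intro S
    obtain ⟨C1, hC⟩ := num_leR Θ I hδ (fun t ht => by
      rw [hI] at ht
      push Not at ht
      obtain ⟨v, hv1, hv2, hv3⟩ := ht
      exact ⟨v, hv2, hv1, hv3⟩) S
    refine ⟨C1, fun m N hm ω hlin hsec => hC m N hm ω hlin fun l => ?_⟩
    have h5 := h3 _ _ _ _ _ (hsec l)
    rwa [Cvr.pw_one] at h5

end Pool.Agent.H172.RP
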