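import Pool.Agent.H172.RP.Top

/-!
The geography of the asymptotic orders.
-/

set_option autoImplicit false
set_option linter.overlappingInstances false
set_option linter.unusedSectionVars false
set_option maxHeartbeats 1000000

open FF MvPolynomial Pool.Agent.W603.LV Pool.Agent.W602.GT Pool.Agent.W602.Cov
open Pool.Agent.TH756.PR Pool.Agent.TH122.AB Pool.Agent.TH756.PN Pool.Agent.Y169.CH
open Pool.Agent.TH152.AC
open Pool.Agent.Y169.TH (dotL dotL_apply)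
open Pool.Agent.H172.EG Pool.Agent.H172.LG

namespace Pool.Agent.H172.RP

/-- an optimal dual solution for all right hand sides with the same signs -/
theorem geo_opt {N : ℕ} {ι : Type} [Fintype ι] {l : ι → Fin N → ℚ}
    (hrec : ∀ z : Fin N → ℚ, (∀ s, 0 ≤ dotL (l s) z) → z = 0) (u : Fin N → ℚ) {b0 : ι → ℚ}
    (hne : (Pg l b0).Nonempty) :
    ∃ w : ι → ℚ, (∀ s, 0 ≤ w s) ∧ (∀ z, dotL u z = ∑ s, w s * dotL (l s) z) ∧
      ∀ b1 : ι → ℚ, (∀ (I : Fin N → ι) (s : ι), SignType.sign (dotL (l s) (vt l I b0) - b0 s) =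
        SignType.sign (dotL (l s) (vt l I b1) - b1 s)) →
        ∃ y ∈ Pg l b1, dotL u y = ∑ s, w s * b1 s := by
  classical
  obtain ⟨p, hp, hact, hmin⟩ := exists_opt hrec u hne
  obtain ⟨w, hw, hu, hwp⟩ := lpg_dual hrec hp hmin
  obtain ⟨I, hI, hdet⟩ := exists_rows hact
  have hpe := eq_vt hdet hI
  refine ⟨w, hw, hu, fun b1 hb => ⟨vt l I b1, fun s => ?_, ?_⟩⟩
  · have h1 := hb I s
    rw [← hpe] at h1
    have h2 : 0 ≤ dotL (l s) p - b0 s := sub_nonneg.2 (hp s)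
    have h3 : 0 ≤ SignType.sign (dotL (l s) (vt l I b1) - b1 s) := by
      rw [← h1]
      exact sign_nonneg_iff.2 h2
    have h4 := sign_nonneg_iff.1 h3
    linarith
  · rw [hu]
    refine Finset.sum_congr rfl fun s _ => ?_
    rcases mul_eq_zero.1 (hwp s) with h | h
    · rw [h, zero_mul, zero_mul]
    · have h1 := hb I s
      rw [← hpe, h, sign_zero] at h1
      have h2 := sign_eq_zero_iff.1 h1.symm
      have h3 : dotL (l s) (vt l I b1) = b1 s := by linarith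
      rw [h3]

variable {r R : ℕ} {n : Fin r → ℕ} {K : Type} [Field K] [Algebra ℂ K] {d : ℕ}
  {e : ((i : Fin r) × Fin (n i)) ≃ Fin (d + 1)} {dF : Fin r → ℕ}

/-- the value of an affine function -/
def valA (rays : Finset (Fin r → ℕ)) (g : ((Fin r → ℕ) → ℚ) × ℚ) (δ : (Fin r → ℕ) → ℚ) : ℚ :=
  g.2 + ∑ v ∈ rays, g.1 v * δ v

/-- linear functions of the right hand sides are affine functions of the coefficients -/
theorem aff_conv (n dF : Fin r → ℕ) {rays T : Finset (Fin r → ℕ)} (hsub : rays ⊆ T)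
    (A : Fin r ⊕ T → ℚ) (c0 : ℚ) :
    ∃ g : ((Fin r → ℕ) → ℚ) × ℚ, ∀ δ : (Fin r → ℕ) → ℚ, (∀ v, v ∉ rays → δ v = 1) →
      valA rays g δ = c0 + ∑ s, A s * rhsr n dF (fun s : T => δ s.1) 1 s := by
  classical
  let A' : (Fin r → ℕ) → ℚ := fun v => if h : v ∈ T then A (Sum.inr ⟨v, h⟩) else 0
  refine ⟨(fun v => - A' v, c0 + ∑ i, A (Sum.inl i) * rhsr n dF (fun s : T => (0 : ℚ)) 1 (Sum.inl i) +
    ∑ v ∈ rays, A' v), fun δ hδ => ?_⟩
  have h1 : ∑ s : T, A (Sum.inr s) * (1 - δ s.1) = ∑ v ∈ rays, A' v * (1 - δ v) := by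
    have h2 : ∑ s : T, A (Sum.inr s) * (1 - δ s.1) = ∑ v ∈ T, A' v * (1 - δ v) := by
      rw [← Finset.sum_coe_sort T]
      refine Finset.sum_congr rfl fun s _ => ?_
      simp only [A']
      rw [dif_pos s.2]
    rw [h2]
    symm
    refine Finset.sum_subset hsub fun v _ hv => ?_
    rw [hδ v hv, sub_self, mul_zero]
  have h2 : ∑ s : T, A (Sum.inr s) * rhsr n dF (fun s : T => δ s.1) 1 (Sum.inr s) =
      ∑ s : T, A (Sum.inr s) * (1 - δ s.1) := by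
    refine Finset.sum_congr rfl fun s _ => ?_
    simp only [rhsr, Sum.elim_inr]
    ring
  have h3 : ∑ i, A (Sum.inl i) * rhsr n dF (fun s : T => δ s.1) 1 (Sum.inl i) =
      ∑ i, A (Sum.inl i) * rhsr n dF (fun s : T => (0 : ℚ)) 1 (Sum.inl i) := rfl
  rw [Fintype.sum_sum_type, h2, h1, h3]
  unfold valA
  simp only [mul_sub, mul_one, Finset.sum_sub_distrib]
  simp only [neg_mul, Finset.sum_neg_distrib]
  ring

variable (Θ : Nc e dF K R)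

/-- **The geography.** -/
theorem geo {rays T : Finset (Fin r → ℕ)} (hsub : rays ⊆ T)
    (hT : ∀ v ∈ T, Prim Θ.C.M Θ.C.a v)
    (hunit : ∀ i, ∃ s : T, s.1 i ≠ 0 ∧ ∀ k, k ≠ i → s.1 k = 0)
    {η : (Fin (d + 1) → Derivation ℂ K K) → K} (hη : IsPluri 1 η) (hη0 : η ≠ 0) :
    ∃ (M : ℕ) (ℓ : Fin M → ((Fin r → ℕ) → ℚ) × ℚ)
      (φ : Place ℂ K → (Fin M → SignType) → ((Fin r → ℕ) → ℚ) × ℚ) (D : ℕ), 1 ≤ D ∧
      ∀ δ : (Fin r → ℕ) → ℚ, (∀ v, δ v ≤ 1) → (∀ v, v ∉ rays → δ v = 1) →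
      (∀ v ∈ T, 1 - δ v ≤ ∑ i, (((dF i : ℚ) - n i - 1) / dF i) * v i) →
      ∀ q E : ℕ, 1 ≤ q → (∀ v ∈ rays, ∃ t : ℤ, (q : ℚ) * δ v = t) → E = q * D →
      ∀ P : Place ℂ K, ∀ σ : ℚ,
        σ = valA rays (φ P fun k => SignType.sign (valA rays (ℓ k) δ)) δ →
        (∀ (m : ℕ) (ω : (Fin (d + 1) → Derivation ℂ K K) → K), 1 ≤ m →
          SecP (d + 1) (VT Θ) (dT Θ fun v => (δ v : ℝ)) {1} m ω → ∀ Dv, ω Dv ≠ 0 →
            m * σ ≤ (P.ord (ω Dv) : ℚ) - m * P.ord (η Dv)) ∧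
        (∀ S : Finset K, ∃ C : ℕ, ∀ (m : ℕ) (ω : (Fin (d + 1) → Derivation ℂ K K) → K), 1 ≤ m →
          SecP (d + 1) (VT Θ) (dT Θ fun v => (δ v : ℝ)) S m ω → ∀ Dv, ω Dv ≠ 0 →
            m * σ ≤ (P.ord (ω Dv) : ℚ) - m * P.ord (η Dv) + C) ∧
        ∃ s : (Fin (d + 1) → Derivation ℂ K K) → K, s ≠ 0 ∧
          SecP (d + 1) (VT Θ) (dT Θ fun v => (δ v : ℝ)) {1} E s ∧ ∀ Dv, s Dv ≠ 0 →
            (P.ord (s Dv) : ℚ) - E * P.ord (η Dv) = E * σ := by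
  classical
  obtain ⟨D0, hD00⟩ := exists_dual Θ.C.hZ
  have hD : ∀ i j, D0 i (Θ.C.Z j) = if i = j then 1 else 0 := by
    intro i j
    have h1 := congrFun (congrFun hD00 i) j
    rw [Matrix.of_apply, Matrix.one_apply] at h1
    exact h1
  have hom := Θ.om_one hD
  have hηD : η D0 ≠ 0 := by
    intro h0
    apply hη0
    funext Dv
    obtain ⟨A, rfl⟩ := EG.exists_mat Θ.C.hZ hD Dv
    rw [hη A D0, h0, mul_zero]
    rfl
  let l : Fin r ⊕ T → Fin r → ℚ := fun s k => ((rowr dF (fun s : T => s.1) s k : ℤ) : ℚ)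
  have hrec : ∀ z : Fin r → ℚ, (∀ s, 0 ≤ dotL (l s) z) → z = 0 :=
    recr_zero (dF := dF) hunit Θ.hdF
  let bb : ((Fin r → ℕ) → ℚ) → Fin r ⊕ T → ℚ := fun δ => rhsr n dF (fun s : T => δ s.1) 1
  -- the functions
  let κ : Type := (Fin r → Fin r ⊕ T) × (Fin r ⊕ T)
  choose ℓ0 hℓ0 using fun k : κ => aff_conv n dF hsub (cf l k.1 k.2) 0
  let ε : Fin (Fintype.card κ) ≃ κ := (Fintype.equivFin κ).symm
  let ℓ : Fin (Fintype.card κ) → ((Fin r → ℕ) → ℚ) × ℚ := fun k => ℓ0 (ε k)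
  have hℓ : ∀ (δ : (Fin r → ℕ) → ℚ), (∀ v, v ∉ rays → δ v = 1) → ∀ k,
      valA rays (ℓ k) δ = dotL (l (ε k).2) (vt l (ε k).1 (bb δ)) - bb δ (ε k).2 := by
    intro δ hδ k
    have h1 := hℓ0 (ε k) δ hδ
    rw [zero_add] at h1
    have h2 := cf_sum (l := l) (ε k).1 (ε k).2 (bb δ)
    exact h1.trans h2
  -- the admissible coefficients
  let Ok : ((Fin r → ℕ) → ℚ) → Prop := fun δ => (∀ v, δ v ≤ 1) ∧ (∀ v, v ∉ rays → δ v = 1) ∧
    ∀ v ∈ T, 1 - δ v ≤ ∑ i, (((dF i : ℚ) - n i - 1) / dF i) * v i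
  have hPne : ∀ δ, Ok δ → (fun i => ((dF i : ℚ) - n i - 1) / dF i) ∈ Pg l (bb δ) := by
    intro δ hδ
    exact pr_ne (n := n) (dF := dF) (ρ := fun s : T => s.1) (δ := fun s => δ s.1) Θ.hdF
      (fun s => hδ.2.2 s.1 s.2)
  -- the data of the places
  choose α v j hdat hα using fun P : Place ℂ K => Θ.exists_dt P
  have hφ : ∀ (P : Place ℂ K) (π : Fin (Fintype.card κ) → SignType),
      ∃ (g : ((Fin r → ℕ) → ℚ) × ℚ) (w : Fin r ⊕ T → ℚ), (∀ s, 0 ≤ w s) ∧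
        ∀ δ, Ok δ → (fun k => SignType.sign (valA rays (ℓ k) δ)) = π →
        valA rays g δ = (-((∑ i, ((n i : ℤ) + 1) * α P i : ℤ) : ℚ) - ((∑ i, (v P i : ℤ) : ℤ) : ℚ) -
          P.ord (η D0)) + ∑ s, w s * bb δ s ∧
        (∀ z, dotL (fun k => (v P k : ℚ)) z = ∑ s, w s * dotL (l s) z) ∧
        ∃ y ∈ Pg l (bb δ), dotL (fun k => (v P k : ℚ)) y = ∑ s, w s * bb δ s := by
    intro P π
    by_cases h : ∃ δ0, Ok δ0 ∧ (fun k => SignType.sign (valA rays (ℓ k) δ0)) = π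
    · obtain ⟨δ0, hδ0, hπ⟩ := h
      obtain ⟨w, hw, hu, hopt⟩ := geo_opt hrec (fun k => (v P k : ℚ)) ⟨_, hPne δ0 hδ0⟩
      obtain ⟨g, hg⟩ := aff_conv n dF hsub w (-((∑ i, ((n i : ℤ) + 1) * α P i : ℤ) : ℚ) -
        ((∑ i, (v P i : ℤ) : ℤ) : ℚ) - P.ord (η D0))
      refine ⟨g, w, hw, fun δ hδ hπ' => ⟨hg δ hδ.2.1, hu, hopt (bb δ) fun I s => ?_⟩⟩
      have h1 := congrFun (hπ.trans hπ'.symm) (ε.symm (I, s))
      have h2 := hℓ δ0 hδ0.2.1 (ε.symm (I, s))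
      have h3 := hℓ δ hδ.2.1 (ε.symm (I, s))
      rw [ε.apply_symm_apply] at h2 h3
      rw [← h2, ← h3]
      exact h1
    · exact ⟨0, 0, fun _ => le_refl _, fun δ hδ hπ => absurd ⟨δ, hδ, hπ⟩ h⟩
  choose φ w hw hφ2 using hφ
  -- the constants
  obtain ⟨B, hB⟩ : ∃ B, B = ∑ i, dF i + ∑ s : T, ∑ k, s.1 k := ⟨_, rfl⟩
  have hB1 : ∀ k, dF k ≤ B := fun k => by
    have h1 : dF k ≤ ∑ i, dF i := Finset.single_le_sum (fun _ _ => Nat.zero_le _) (Finset.mem_univ k)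
    omega
  have hB2 : ∀ (s : T) k, s.1 k ≤ B := fun s k => by
    have h1 : s.1 k ≤ ∑ k, s.1 k := Finset.single_le_sum (fun _ _ => Nat.zero_le _)
      (Finset.mem_univ k)
    have h2 : ∑ k, s.1 k ≤ ∑ s : T, ∑ k, s.1 k :=
      Finset.single_le_sum (f := fun s : T => ∑ k, s.1 k) (fun _ _ => Nat.zero_le _)
        (Finset.mem_univ s)
    omega
  obtain ⟨D, hDdef⟩ : ∃ D, D = (r.factorial * B ^ r).factorial := ⟨_, rfl⟩
  have hDpos : 0 < D := by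
    rw [hDdef]
    exact Nat.factorial_pos _
  have hDd : ∀ i, 1 ≤ i → i ≤ r.factorial * B ^ r → i ∣ D := by
    intro i hi hi2
    rw [hDdef]
    exact Nat.dvd_factorial hi hi2
  refine ⟨Fintype.card κ, ℓ, φ, D, hDpos, fun δ hδ1 hδ2 hδ3 q E hq0 hqr hE P σ hσ => ?_⟩
  have hok : Ok δ := ⟨hδ1, hδ2, hδ3⟩
  have hqz : ∀ s : T, ∃ z : ℤ, (q : ℚ) * δ s.1 = z := by
    intro s
    by_cases h : s.1 ∈ rays
    · exact hqr s.1 h
    · refine ⟨q, ?_⟩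
      rw [hδ2 s.1 h, mul_one]
      rfl
  have hE0 : 0 < E := by
    rw [hE]
    exact Nat.mul_pos hq0 hDpos
  obtain ⟨hval, hu, y, hy, hyu⟩ := hφ2 P _ δ hok rfl
  rw [← hσ] at hval
  -- the comparison with the frame `D0`
  have hframe : ∀ (m : ℕ) (ω : (Fin (d + 1) → Derivation ℂ K K) → K), 1 ≤ m → IsPluri m ω →
      ∀ Dv, ω Dv ≠ 0 → ω D0 ≠ 0 ∧
        (P.ord (ω Dv) : ℚ) - m * P.ord (η Dv) = (P.ord (ω D0) : ℚ) - m * P.ord (η D0) := by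
    intro m ω hm hω Dv hDv
    obtain ⟨A, rfl⟩ := EG.exists_mat Θ.C.hZ hD Dv
    have h1 := hω A D0
    have h2 := hη A D0
    rw [h1] at hDv ⊢
    have hω0 : ω D0 ≠ 0 := right_ne_zero_of_mul hDv
    have hA : A.det ≠ 0 := by
      intro h0
      rw [h0, zero_pow (by omega), zero_mul] at hDv
      exact hDv rfl
    refine ⟨hω0, ?_⟩
    rw [h2, pow_one, P.ord_mul (pow_ne_zero _ hA) hω0, P.ord_pow, P.ord_mul hA hηD]
    push_cast
    ring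
  -- the bound at the frame `D0`
  obtain ⟨X, hX⟩ : ∃ X : ℝ, X = - (((1 : ℕ) : ℝ) * ((∑ i, ((n i : ℤ) + 1) * α P i : ℤ) : ℝ)) +
      ((1 : ℕ) : ℝ) * ∑ s, (w P (fun k => SignType.sign (valA rays (ℓ k) δ)) s : ℝ) *
        rhsR n dF (fun s : T => s.1) (fun v => (δ v : ℝ)) s -
      ((1 : ℕ) : ℝ) * ((∑ i, (v P i : ℤ) : ℤ) : ℝ) := ⟨_, rfl⟩
  have hXσ : X = ((σ + P.ord (η D0) : ℚ) : ℝ) := by
    rw [hX, hval]
    have h1 : ∑ s, (w P (fun k => SignType.sign (valA rays (ℓ k) δ)) s : ℝ) *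
        rhsR n dF (fun s : T => s.1) (fun v => (δ v : ℝ)) s =
        ((∑ s, w P (fun k => SignType.sign (valA rays (ℓ k) δ)) s * bb δ s : ℚ) : ℝ) := by
      push_cast
      refine Finset.sum_congr rfl fun s _ => ?_
      congr 1
      rcases s with i | s
      · simp only [rhsR, bb, rhsr, Sum.elim_inl]
        push_cast
        ring
      · simp only [rhsR, bb, rhsr, Sum.elim_inr]
        push_cast
        ring
    rw [h1]
    push_cast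
    ring
  have hbd := fun S : Finset K => ord_boundQ Θ P S (ρ := fun s : T => s.1)
    (fun s => hT s.1 s.2) (δ := fun v => (δ v : ℝ)) (fun v => by exact_mod_cast hδ1 v) hD
    (hα P) (hdat P) (hw P fun k => SignType.sign (valA rays (ℓ k) δ)) hu (E := 1) Nat.one_pos
    (le_refl _)
  rw [← hX, hXσ] at hbd
  have hi : ∀ (m : ℕ) (ω : (Fin (d + 1) → Derivation ℂ K K) → K), 1 ≤ m →
      SecP (d + 1) (VT Θ) (dT Θ fun v => (δ v : ℝ)) {1} m ω → ∀ Dv, ω Dv ≠ 0 →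
        m * σ ≤ (P.ord (ω Dv) : ℚ) - m * P.ord (η Dv) := by
    intro m ω hm hω Dv hDv
    obtain ⟨h1, h2⟩ := hframe m ω hm hω.1 Dv hDv
    rw [h2]
    obtain ⟨C, hC⟩ := hbd {1}
    have h3 := exactR hC hω h1
    have h4 : ((m * (σ + P.ord (η D0)) : ℚ) : ℝ) ≤ ((P.ord (ω D0) : ℚ) : ℝ) := by
      push_cast at h3 ⊢
      linarith
    have h5 := Rat.cast_le.1 h4
    linarith
  refine ⟨hi, fun S => ?_, ?_⟩
  · obtain ⟨C, hC⟩ := hbd S
    refine ⟨C, fun m ω hm hω Dv hDv => ?_⟩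
    obtain ⟨h1, h2⟩ := hframe m ω hm hω.1 Dv hDv
    rw [h2]
    have h3 := hC m ω hω h1
    have h4 : ((m * (σ + P.ord (η D0)) : ℚ) : ℝ) ≤ ((P.ord (ω D0) + C : ℚ) : ℝ) := by
      push_cast at h3 ⊢
      linarith
    have h5 := Rat.cast_le.1 h4
    linarith
  · -- the section
    obtain ⟨x, hx1, hx2⟩ := exists_latR (ρ := fun s : T => s.1) (δ := fun s => δ s.1) (n := n)
      hunit Θ.hdF hB1 hB2 hDd (fun s => hδ1 _) hqz (fun k => (v P k : ℚ)) (y := y) hy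
    rw [← hE] at hx1 hx2
    have hoff : ∀ v, (∀ s : T, s.1 ≠ v) → δ v = 1 := fun v hv =>
      hδ2 v fun hvr => hv ⟨v, hsub hvr⟩ rfl
    have hsec := sct_secR Θ (ρ := fun s : T => s.1) hoff hx1 (j P)
    have hne0 : Θ.sct E x (j P) D0 ≠ 0 := Θ.sct_ne hom
    refine ⟨Θ.sct E x (j P), fun h0 => hne0 (by rw [h0]; rfl), hsec, fun Dv hDv => ?_⟩
    refine le_antisymm ?_ (hi E _ hE0 hsec Dv hDv)
    obtain ⟨-, h2⟩ := hframe E _ hE0 hsec.1 Dv hDv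
    rw [h2, sct_ordR Θ hx1 hom (hdat P), hval]
    rw [hyu, dotL_apply] at hx2
    push_cast at hx2 ⊢
    linarith

end Pool.Agent.H172.RP
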