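import Pool.Agent.H172.RP.Geo

/-!
The geography of the asymptotic orders: the final form.
-/

set_option autoImplicit false
set_option linter.overlappingInstances false
set_option linter.unusedSectionVars false
set_option maxHeartbeats 1000000

open FF MvPolynomial Pool.Agent.W603.LV Pool.Agent.W602.GT Pool.Agent.W602.Cov
open Pool.Agent.TH756.PR Pool.Agent.TH122.AB Pool.Agent.TH756.PN Pool.Agent.Y169.CH
open Pool.Agent.H172.EG Pool.Agent.H172.LG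

namespace Pool.Agent.H172.RP

variable {r R : ℕ} {n : Fin r → ℕ} {K : Type} [Field K] [Algebra ℂ K] {d : ℕ}
  {e : ((i : Fin r) × Fin (n i)) ≃ Fin (d + 1)}

/-- **The geography.** -/
theorem geo_main (hn : ∀ i, 1 ≤ n i) {x : ∀ i, Fin (n i + 1) → K} (hx0 : ∀ i, x i 0 ≠ 0)
    (hbas : IsTranscendenceBasis ℂ (uu e x)) {F : ∀ i, MvPolynomial (Fin (n i + 1)) ℂ}
    {dF : Fin r → ℕ} (hdF : ∀ i, 1 ≤ dF i) (hs : ∀ i, SmF (F i))
    (hh : ∀ i, (F i).IsHomogeneous (dF i)) {z : Fin R → K}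
    {M : Fin R → ℕ} (hM : ∀ j, 0 < M j) {a : Fin R → Fin r → ℕ}
    (hz : ∀ j, z j ^ M j = ∏ i, (aeval (x i) (F i) / x i 0 ^ dF i) ^ a j i)
    (hdiv : ∀ j i, M j ∣ a j i * dF i)
    (hgen : IntermediateField.adjoin ℂ (Set.range (uu e x) ∪ Set.range z) = ⊤)
    {rays : Finset (Fin r → ℕ)} (hrays : ∀ v ∈ rays, Prim M a v)
    {η : (Fin (d + 1) → Derivation ℂ K K) → K} (hη : IsPluri 1 η) (hη0 : η ≠ 0) :
    ∃ (p : ℕ) (ℓ : Fin p → ((Fin r → ℕ) → ℚ) × ℚ)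
      (φ : Place ℂ K → (Fin p → SignType) → ((Fin r → ℕ) → ℚ) × ℚ) (D : ℕ), 1 ≤ D ∧
      ∀ δ : (Fin r → ℕ) → ℚ, (∀ v, δ v ≤ 1) → (∀ v, v ∉ rays → δ v = 1) →
      (∀ v, Prim M a v → 1 - δ v ≤ ∑ i, (((dF i : ℚ) - n i - 1) / dF i) * v i) →
      ∀ q E : ℕ, 1 ≤ q → (∀ v ∈ rays, ∃ t : ℤ, (q : ℚ) * δ v = t) → E = q * D →
      ∀ P : Place ℂ K, ∀ σ : ℚ,
        σ = valA rays (φ P fun k => SignType.sign (valA rays (ℓ k) δ)) δ →
        (∀ (m : ℕ) (ω : (Fin (d + 1) → Derivation ℂ K K) → K), 1 ≤ m →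
          LSec e x F dF (fun v => (δ v : ℝ)) {1} m 1 ω → ∀ Dv, ω Dv ≠ 0 →
            m * σ ≤ (P.ord (ω Dv) : ℚ) - m * P.ord (η Dv)) ∧
        (∀ S : Finset K, ∃ C : ℕ, ∀ (m : ℕ) (ω : (Fin (d + 1) → Derivation ℂ K K) → K), 1 ≤ m →
          LSec e x F dF (fun v => (δ v : ℝ)) S m 1 ω → ∀ Dv, ω Dv ≠ 0 →
            m * σ ≤ (P.ord (ω Dv) : ℚ) - m * P.ord (η Dv) + C) ∧
        ∃ s : (Fin (d + 1) → Derivation ℂ K K) → K, s ≠ 0 ∧
          LSec e x F dF (fun v => (δ v : ℝ)) {1} E 1 s ∧ ∀ Dv, s Dv ≠ 0 →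
            (P.ord (s Dv) : ℚ) - E * P.ord (η Dv) = E * σ := by
  classical
  obtain ⟨Θ, rfl, rfl, h3, h4⟩ := exists_fin e hn hx0 hbas hdF hs hh hM hz hdiv hgen
  obtain ⟨L, hL⟩ : ∃ L, L = ∏ j, Θ.C.M j := ⟨_, rfl⟩
  have hL0 : 1 ≤ L := by
    have h1 : 0 < ∏ j, Θ.C.M j := Finset.prod_pos fun j _ => hM j
    omega
  choose u hu1 hu2 using fun i => exists_unit (a := Θ.C.a) (M := Θ.C.M) hL0 (fun j => by
    rw [hL]
    exact Finset.dvd_prod_of_mem Θ.C.M (Finset.mem_univ j)) i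
  let T : Finset (Fin r → ℕ) := rays ∪ Finset.univ.image fun i t => if t = i then u i else 0
  have hT : ∀ v ∈ T, Prim Θ.C.M Θ.C.a v := by
    intro v hv
    rcases Finset.mem_union.1 hv with h5 | h5
    · exact hrays v h5
    · obtain ⟨i, -, rfl⟩ := Finset.mem_image.1 h5
      exact hu2 i
  obtain ⟨p, ℓ, φ, D, hD, hgeo⟩ := geo Θ (rays := rays) (T := T) Finset.subset_union_left hT (fun i => by
      refine ⟨⟨fun t => if t = i then u i else 0, Finset.mem_union_right _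
        (Finset.mem_image_of_mem _ (Finset.mem_univ i))⟩, ?_, fun t ht => if_neg ht⟩
      dsimp only
      rw [if_pos rfl]
      intro h0
      apply (hu2 i).1.1
      funext t
      rw [h0]
      simp) hη hη0
  refine ⟨p, ℓ, φ, D, hD, fun δ hδ1 hδ2 hδ3 q E hq hqr hE P σ hσ => ?_⟩
  obtain ⟨h5, h6, s, hs0, hs1, hs2⟩ := hgeo δ hδ1 hδ2 (fun v hv => hδ3 v (hT v hv)) q E hq hqr hE
    P σ hσ
  refine ⟨fun m ω hm hω => h5 m ω hm ?_, fun S => ?_, s, hs0, h4 _ _ _ _ hs1, hs2⟩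
  · have h7 := h3 _ _ _ _ _ hω
    rwa [Cvr.pw_one] at h7
  · obtain ⟨C, hC⟩ := h6 S
    refine ⟨C, fun m ω hm hω => hC m ω hm ?_⟩
    have h7 := h3 _ _ _ _ _ hω
    rwa [Cvr.pw_one] at h7

end Pool.Agent.H172.RP
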