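import Pool.Agent.H172.RP.Num
import Pool.Agent.Y169.TH.Kod

/-!
The Iitaka dimension of pairs with real coefficients.
-/

set_option autoImplicit false
set_option linter.overlappingInstances false
set_option linter.unusedSectionVars false
set_option maxHeartbeats 1000000

open FF MvPolynomial Pool.Agent.W603.LV Pool.Agent.W602.GT Pool.Agent.W602.Cov
open Pool.Agent.TH756.PR Pool.Agent.TH122.AB Pool.Agent.TH756.PN Pool.Agent.Y169.CH
open Pool.Agent.H172.EG Pool.Agent.H172.LG

namespace Pool.Agent.H172.RP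

variable {r R : ℕ} {n : Fin r → ℕ} {K : Type} [Field K] [Algebra ℂ K] {d : ℕ}
  {e : ((i : Fin r) × Fin (n i)) ≃ Fin (d + 1)} {dF : Fin r → ℕ} (Θ : Nc e dF K R)

/-- powers of some of the coordinates -/
theorem pow_ind {Y : Fin (d + 1) → K} (hY : AlgebraicIndependent ℂ Y) {h : ℕ}
    {b : Fin h → Fin (d + 1)} (hb : Function.Injective b) {p : Fin h → ℕ} (hp : ∀ i, 0 < p i) :
    AlgebraicIndependent ℂ fun i => Y (b i) ^ p i := by
  classical
  have h1 := Pool.Agent.Y169.TH.laurent_ind hY (fun j => hY.ne_zero j)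
    (fun i j => if j = b i then (p i : ℤ) else 0) (by
      rw [Fintype.linearIndependent_iff]
      intro g hg i
      have h2 := congrFun hg (b i)
      rw [Finset.sum_apply, Finset.sum_eq_single i] at h2
      · simp only [Pi.smul_apply, if_true, smul_eq_mul, Pi.zero_apply] at h2
        rcases mul_eq_zero.1 h2 with h3 | h3
        · exact h3
        · have h4 := hp i
          have h5 : (p i : ℚ) = 0 := by exact_mod_cast h3
          have h6 : p i = 0 := by exact_mod_cast h5
          omega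
      · intro i' _ hi'
        simp only [Pi.smul_apply, smul_eq_mul]
        rw [if_neg fun h3 => hi' (hb h3).symm, Int.cast_zero, mul_zero]
      · intro h3
        exact absurd (Finset.mem_univ _) h3)
  have h2 : (fun i => ∏ j, Y j ^ (if j = b i then (p i : ℤ) else 0)) = fun i => Y (b i) ^ p i := by
    funext i
    rw [Finset.prod_eq_single (b i)]
    · rw [if_pos rfl, zpow_natCast]
    · intro j _ hj
      rw [if_neg hj, zpow_zero]
    · intro h3
      exact absurd (Finset.mem_univ _) h3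
  rw [← h2]
  exact h1

variable {ι : Type} [Fintype ι] {ρ : ι → Fin r → ℕ}

/-- **The Iitaka dimension.** -/
theorem kod_geR
    (hunit : ∀ i, ∃ s, ρ s i ≠ 0 ∧ ∀ k, k ≠ i → ρ s k = 0)
    {δ : (Fin r → ℕ) → ℝ} (hδ : ∀ v, δ v ≤ 1) (hoff : ∀ v, (∀ s, ρ s ≠ v) → δ v = 1)
    (hpos : ∀ s, 1 - δ (ρ s) ≤ ∑ i, (((dF i : ℝ) - n i - 1) / dF i) * ρ s i)
    (I : Finset (Fin r)) (hI : ∀ t ∈ I, ∀ s, ρ s t ≠ 0 →
      1 - δ (ρ s) < ∑ i, (((dF i : ℝ) - n i - 1) / dF i) * ρ s i) :
    ∃ E : ℕ, 1 ≤ E ∧ ∃ ω : Fin ((∑ t ∈ I, n t) + 1) → (Fin (d + 1) → Derivation ℂ K K) → K,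
      (∀ b, SecP (d + 1) (VT Θ) (dT Θ δ) {1} E (ω b)) ∧
      ∃ D0, ω 0 D0 ≠ 0 ∧
        AlgebraicIndependent ℂ fun b : Fin (∑ t ∈ I, n t) => ω b.succ D0 / ω 0 D0 := by
  classical
  obtain ⟨D0, hD00⟩ := exists_dual Θ.C.hZ
  have hD : ∀ i j, D0 i (Θ.C.Z j) = if i = j then 1 else 0 := by
    intro i j
    have h1 := congrFun (congrFun hD00 i) j
    rw [Matrix.of_apply, Matrix.one_apply] at h1
    exact h1
  have hom := Θ.om_one hD
  have hdq : ∀ t, (0 : ℝ) < dF t := fun t => by
    have := Θ.hdF t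
    exact_mod_cast (by omega : 0 < dF t)
  -- the signs of the degrees
  have hθ : ∀ t, (0 : ℝ) ≤ (dF t : ℝ) - n t - 1 ∧ (t ∈ I → (0 : ℝ) < (dF t : ℝ) - n t - 1) := by
    intro t
    obtain ⟨s, hs1, hs2⟩ := hunit t
    have h1 : ∑ i, (((dF i : ℝ) - n i - 1) / dF i) * ρ s i =
        (((dF t : ℝ) - n t - 1) / dF t) * ρ s t := by
      rw [Finset.sum_eq_single t]
      · intro i _ hi
        rw [hs2 i hi, Nat.cast_zero, mul_zero]
      · intro h
        exact absurd (Finset.mem_univ _) h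
    have h2 : (0 : ℝ) < ρ s t := by
      have : 0 < ρ s t := Nat.pos_of_ne_zero hs1
      exact_mod_cast this
    have h3 := hδ (ρ s)
    constructor
    · have h4 := hpos s
      rw [h1] at h4
      by_contra hneg
      push Not at hneg
      have h5 : ((dF t : ℝ) - n t - 1) / dF t < 0 := div_neg_of_neg_of_pos hneg (hdq t)
      have h6 := mul_neg_of_neg_of_pos h5 h2
      linarith
    · intro ht
      have h4 := hI t ht s hs1
      rw [h1] at h4
      by_contra hneg
      push Not at hneg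
      have h5 : ((dF t : ℝ) - n t - 1) / dF t ≤ 0 := div_nonpos_of_nonpos_of_nonneg hneg (hdq t).le
      have h6 := mul_nonpos_of_nonpos_of_nonneg h5 h2.le
      linarith
  have hθn : ∀ t, n t + 1 ≤ dF t ∧ (t ∈ I → n t + 1 < dF t) := by
    intro t
    obtain ⟨h1, h2⟩ := hθ t
    constructor
    · have h3 : ((n t + 1 : ℕ) : ℝ) ≤ dF t := by
        push_cast
        linarith
      exact_mod_cast h3
    · intro ht
      have h3 : ((n t + 1 : ℕ) : ℝ) < dF t := by
        push_cast
        linarith [h2 ht]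
      exact_mod_cast h3
  -- the perturbation
  obtain ⟨k0, hk0, hk1⟩ : ∃ k0 : ℕ, 1 ≤ k0 ∧ ∀ s, (∃ t ∈ I, ρ s t ≠ 0) →
      (k0 : ℝ) * (1 - δ (ρ s)) + ∑ i, (ρ s i : ℝ) ≤
        k0 * ∑ i, (((dF i : ℝ) - n i - 1) / dF i) * ρ s i := by
    have hall : ∀ s, ∃ k : ℕ, ∀ k', k ≤ k' → (∃ t ∈ I, ρ s t ≠ 0) →
        (k' : ℝ) * (1 - δ (ρ s)) + ∑ i, (ρ s i : ℝ) ≤
          k' * ∑ i, (((dF i : ℝ) - n i - 1) / dF i) * ρ s i := by
      intro s
      by_cases hs : ∃ t ∈ I, ρ s t ≠ 0
      · obtain ⟨t, ht, hst⟩ := hs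
        have h1 := hI t ht s hst
        obtain ⟨gap, hgap⟩ : ∃ gap : ℝ, gap = ∑ i, (((dF i : ℝ) - n i - 1) / dF i) * ρ s i -
          (1 - δ (ρ s)) := ⟨_, rfl⟩
        have hgap0 : 0 < gap := by
          rw [hgap]
          linarith
        obtain ⟨k, hk⟩ := exists_nat_ge ((∑ i, (ρ s i : ℝ)) / gap)
        rw [div_le_iff₀ hgap0] at hk
        refine ⟨k, fun k' hk' _ => ?_⟩
        have h2 : (k : ℝ) ≤ k' := by exact_mod_cast hk'
        have h3 : (k : ℝ) * gap ≤ k' * gap := mul_le_mul_of_nonneg_right h2 hgap0.le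
        rw [hgap] at h3 hk
        linarith
      · exact ⟨0, fun k' _ h => absurd h hs⟩
    choose k hk using hall
    refine ⟨∑ s, k s + 1, by omega, fun s hs => hk s _ ?_ hs⟩
    have h1 : k s ≤ ∑ s, k s := Finset.single_le_sum (fun _ _ => Nat.zero_le _) (Finset.mem_univ s)
    omega
  obtain ⟨PD, hPD⟩ : ∃ PD, PD = ∏ t, dF t := ⟨_, rfl⟩
  have hPD0 : 0 < PD := by
    rw [hPD]
    exact Finset.prod_pos fun t _ => Θ.hdF t
  choose pt hpt using fun t : Fin r => show ∃ c, PD = dF t * c from by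
    rw [hPD]
    exact Finset.dvd_prod_of_mem dF (Finset.mem_univ t)
  have hpt0 : ∀ t, 0 < pt t := by
    intro t
    rcases Nat.eq_zero_or_pos (pt t) with h | h
    · have := hpt t
      rw [h, mul_zero] at this
      omega
    · exact h
  -- the exponents; `E = k0 * PD`
  let w : Fin r → ℕ := fun t => k0 * (pt t * (dF t - (n t + 1))) - if t ∈ I then pt t else 0
  have hw : ∀ t, w t + (if t ∈ I then pt t else 0) = k0 * (pt t * (dF t - (n t + 1))) := by
    intro t
    simp only [w]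
    rw [Nat.sub_add_cancel]
    split_ifs with ht
    · have h1 := (hθn t).2 ht
      have h2 : 1 ≤ dF t - (n t + 1) := by omega
      calc pt t = 1 * (pt t * 1) := by ring
        _ ≤ k0 * (pt t * (dF t - (n t + 1))) :=
          Nat.mul_le_mul hk0 (Nat.mul_le_mul_left _ h2)
    · exact Nat.zero_le _
  have hwq : ∀ t, (w t : ℝ) = ((k0 * PD : ℕ) : ℝ) * (((dF t : ℝ) - n t - 1) / dF t) -
      if t ∈ I then (pt t : ℝ) else 0 := by
    intro t
    have h1 : ((w t + (if t ∈ I then pt t else 0) : ℕ) : ℝ) =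
        ((k0 * (pt t * (dF t - (n t + 1))) : ℕ) : ℝ) := by rw [hw t]
    rw [Nat.cast_add, Nat.cast_mul, Nat.cast_mul, Nat.cast_sub (hθn t).1] at h1
    have h2 : ((k0 * PD : ℕ) : ℝ) * (((dF t : ℝ) - n t - 1) / dF t) =
        k0 * (pt t * ((dF t : ℝ) - (n t + 1))) := by
      rw [hpt t]
      have := (hdq t).ne'
      push_cast
      field_simp
      ring
    rw [h2]
    push_cast at h1
    split_ifs with ht
    · rw [if_pos ht] at h1
      linarith
    · rw [if_neg ht] at h1
      linarith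
  obtain ⟨E, hE⟩ : ∃ E, E = k0 * PD := ⟨_, rfl⟩
  have hE0 : 1 ≤ E := by
    rw [hE]
    exact Nat.mul_pos hk0 hPD0
  rw [← hE] at hwq
  have hlat1 : ∀ i, E * (n i + 1) + dF i * w i ≤ E * dF i := by
    intro i
    have h1 : (w i : ℝ) ≤ (E : ℝ) * (((dF i : ℝ) - n i - 1) / dF i) := by
      rw [hwq i]
      have : (0 : ℝ) ≤ if i ∈ I then (pt i : ℝ) else 0 := by
        split_ifs
        · positivity
        · exact le_refl _
      linarith
    have h2 := mul_le_mul_of_nonneg_left h1 (hdq i).le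
    have h3 : (dF i : ℝ) * ((E : ℝ) * (((dF i : ℝ) - n i - 1) / dF i)) =
        E * dF i - E * (n i + 1) := by
      have := (hdq i).ne'
      field_simp
      ring
    rw [h3] at h2
    have h4 : ((E * (n i + 1) + dF i * w i : ℕ) : ℝ) ≤ ((E * dF i : ℕ) : ℝ) := by
      push_cast
      linarith
    exact_mod_cast h4
  have hlat1' : ∀ i ∈ I, E * (n i + 1) + dF i * w i < E * dF i := by
    intro i hi
    have h1 : (w i : ℝ) < (E : ℝ) * (((dF i : ℝ) - n i - 1) / dF i) := by
      rw [hwq i, if_pos hi]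
      have : (0 : ℝ) < pt i := by exact_mod_cast hpt0 i
      linarith
    have h2 := mul_lt_mul_of_pos_left h1 (hdq i)
    have h3 : (dF i : ℝ) * ((E : ℝ) * (((dF i : ℝ) - n i - 1) / dF i)) =
        E * dF i - E * (n i + 1) := by
      have := (hdq i).ne'
      field_simp
      ring
    rw [h3] at h2
    have h4 : ((E * (n i + 1) + dF i * w i : ℕ) : ℝ) < ((E * dF i : ℕ) : ℝ) := by
      push_cast
      linarith
    exact_mod_cast h4
  -- the rational coefficients
  let τ : (Fin r → ℕ) → ℚ := fun v =>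
    if ∃ s, ρ s = v then 1 - (∑ i, (v i : ℚ) * w i) / E else 1
  have hτρ : ∀ s, τ (ρ s) = 1 - (∑ i, (ρ s i : ℚ) * w i) / E := by
    intro s
    simp only [τ]
    rw [if_pos ⟨s, rfl⟩]
  have hτoff : ∀ v, (∀ s, ρ s ≠ v) → τ v = 1 := by
    intro v hv
    simp only [τ]
    rw [if_neg (by push Not; exact hv)]
  have hEq : (0 : ℚ) < E := by exact_mod_cast hE0
  have hEr : (0 : ℝ) < E := by exact_mod_cast hE0
  have hlat : LatR n dF ρ (fun s => τ (ρ s)) E w := by
    refine ⟨hlat1, fun s => ?_⟩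
    change (E : ℚ) * (1 - τ (ρ s)) ≤ _
    rw [hτρ, sub_sub_cancel, mul_div_cancel₀ _ hEq.ne']
  have hτδ : ∀ v, (τ v : ℝ) ≤ δ v := by
    intro v
    by_cases hv : ∃ s, ρ s = v
    · obtain ⟨s, rfl⟩ := hv
      rw [hτρ]
      push_cast
      have h1 : ∑ i, (ρ s i : ℝ) * w i = E * ∑ i, (((dF i : ℝ) - n i - 1) / dF i) * ρ s i -
          ∑ i, (ρ s i : ℝ) * (if i ∈ I then (pt i : ℝ) else 0) := by
        rw [Finset.mul_sum, ← Finset.sum_sub_distrib]
        refine Finset.sum_congr rfl fun i _ => ?_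
        rw [hwq i]
        ring
      have h2 : (E : ℝ) * (1 - δ (ρ s)) ≤ ∑ i, (ρ s i : ℝ) * w i := by
        rw [h1]
        by_cases hs : ∃ t ∈ I, ρ s t ≠ 0
        · have h3 := hk1 s hs
          have h4 : ∑ i, (ρ s i : ℝ) * (if i ∈ I then (pt i : ℝ) else 0) ≤
              PD * ∑ i, (ρ s i : ℝ) := by
            rw [Finset.mul_sum]
            refine Finset.sum_le_sum fun i _ => ?_
            have h5 : (if i ∈ I then (pt i : ℝ) else 0) ≤ PD := by
              split_ifs
              · have h6 : pt i ≤ PD := by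
                  rw [hpt i]
                  exact Nat.le_mul_of_pos_left _ (Θ.hdF i)
                exact_mod_cast h6
              · positivity
            have h6 := mul_le_mul_of_nonneg_left h5 (show (0 : ℝ) ≤ ρ s i by positivity)
            linarith
          have h5 : (0 : ℝ) ≤ PD := by positivity
          have h6 := mul_le_mul_of_nonneg_left h3 h5
          rw [hE]
          push_cast
          linarith
        · push Not at hs
          have h3 : ∑ i, (ρ s i : ℝ) * (if i ∈ I then (pt i : ℝ) else 0) = 0 := by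
            refine Finset.sum_eq_zero fun i _ => ?_
            split_ifs with hi
            · rw [hs i hi, Nat.cast_zero, zero_mul]
            · rw [mul_zero]
          rw [h3, sub_zero]
          exact mul_le_mul_of_nonneg_left (hpos s) hEr.le
      have h3 : 1 - δ (ρ s) ≤ (∑ i, (ρ s i : ℝ) * w i) / E := by
        rw [le_div_iff₀ hEr]
        linarith
      linarith
    · push Not at hv
      rw [hτoff v hv, hoff v hv]
      norm_num
  -- the sections
  have hsec : ∀ j, SecP (d + 1) (VT Θ) (dT Θ δ) {1} E (Θ.sct E w j) := by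
    intro j
    obtain ⟨h1, h2⟩ := sct_secR Θ hτoff hlat j
    refine ⟨h1, fun P hP hd Dv hDv => ?_⟩
    refine (h2 P hP hd Dv hDv).imp id ?_
    rintro ⟨s, hs, hs0, hle⟩
    refine ⟨s, hs, hs0, le_trans ?_ hle⟩
    have h3 : dT Θ (fun v => (τ v : ℝ)) P ≤ dT Θ δ P := by
      unfold dT
      split_ifs
      · exact le_refl _
      · exact hτδ _
    have h4 := mul_le_mul_of_nonneg_left h3 (show (0 : ℝ) ≤ E by positivity)
    linarith
  -- the indices
  have hcard : Fintype.card ((t : I) × Fin (n t.1)) = ∑ t ∈ I, n t := by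
    rw [Fintype.card_sigma]
    simp only [Fintype.card_fin]
    exact Finset.sum_coe_sort I n
  let ε : Fin (∑ t ∈ I, n t) ≃ ((t : I) × Fin (n t.1)) := (Fintype.equivFinOfCardEq hcard).symm
  let jj : Fin (∑ t ∈ I, n t) → ∀ i, Fin (n i + 1) := fun b =>
    Function.update (fun _ => 0) (ε b).1.1 (ε b).2.succ
  refine ⟨E, hE0, Fin.cons (Θ.sct E w fun _ => 0) fun b => Θ.sct E w (jj b), fun b => ?_, D0, ?_, ?_⟩
  · refine Fin.cases ?_ (fun b => ?_) b
    · exact hsec _
    · exact hsec _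
  · exact Θ.sct_ne hom
  · have hq : ∀ b, (Θ.sct E w (jj b) D0) / (Θ.sct E w (fun _ => 0) D0) =
        Θ.C.Z (e ⟨(ε b).1.1, (ε b).2⟩) ^
          (E * dF (ε b).1.1 - (E * (n (ε b).1.1 + 1) + dF (ε b).1.1 * w (ε b).1.1)) := by
      intro b
      obtain ⟨t, ht⟩ : ∃ t, t = (ε b).1.1 := ⟨_, rfl⟩
      unfold Nc.sct
      rw [hom, one_pow, one_mul, one_mul, ← Finset.prod_div_distrib, Finset.prod_eq_single (ε b).1.1]
      · simp only [jj, Function.update_self]
        rw [Θ.hx0, one_pow, one_mul, mul_div_assoc, div_self (zpow_ne_zero _ (Θ.Fx_ne _)), mul_one]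
        congr 1
        rw [Θ.hZ]
        change _ = aff Θ.x (e.symm (e _))
        rw [e.symm_apply_apply]
        change _ = Θ.x _ (Fin.succ _) / Θ.x _ 0
        rw [Θ.hx0, div_one]
      · intro i _ hi
        simp only [jj]
        rw [Function.update_of_ne hi, div_self]
        exact mul_ne_zero (pow_ne_zero _ (Θ.x_ne i _)) (zpow_ne_zero _ (Θ.Fx_ne i))
      · intro h
        exact absurd (Finset.mem_univ _) h
    have h1 := pow_ind (Y := Θ.C.Z) Θ.C.hZ.1 (b := fun b => e ⟨(ε b).1.1, (ε b).2⟩)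
      (fun b b' hbb => by
        have h2 := e.injective hbb
        apply ε.injective
        have h3 : (ε b).1 = (ε b').1 := Subtype.ext (congrArg Sigma.fst h2)
        have h4 : HEq (ε b).2 (ε b').2 := by
          rw [Sigma.mk.injEq] at h2
          exact h2.2
        exact Sigma.ext h3 h4)
      (p := fun b => E * dF (ε b).1.1 - (E * (n (ε b).1.1 + 1) + dF (ε b).1.1 * w (ε b).1.1))
      (fun b => Nat.sub_pos_of_lt (hlat1' _ (ε b).1.2))
    have h2 : (fun b : Fin (∑ t ∈ I, n t) =>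
        (Fin.cons (Θ.sct E w fun _ => 0) (fun b => Θ.sct E w (jj b)) :
          Fin ((∑ t ∈ I, n t) + 1) → (Fin (d + 1) → Derivation ℂ K K) → K) b.succ D0 /
        (Fin.cons (Θ.sct E w fun _ => 0) (fun b => Θ.sct E w (jj b)) :
          Fin ((∑ t ∈ I, n t) + 1) → (Fin (d + 1) → Derivation ℂ K K) → K) 0 D0) =
        fun b => Θ.C.Z (e ⟨(ε b).1.1, (ε b).2⟩) ^
          (E * dF (ε b).1.1 - (E * (n (ε b).1.1 + 1) + dF (ε b).1.1 * w (ε b).1.1)) := by
      funext b
      exact hq b
    rw [h2]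
    exact h1

end Pool.Agent.H172.RP
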