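import Pool.Agent.H172.RP.Dec
import Pool.Agent.H172.EG.LPg

/-!
Linear programs with real right hand sides.
-/

set_option autoImplicit false
set_option linter.overlappingInstances false
set_option linter.unusedSectionVars false
set_option maxHeartbeats 400000

open Pool.Agent.TH152.AC Pool.Agent.Y169.TH Pool.Agent.H172.EF Pool.Agent.H172.EG

namespace Pool.Agent.H172.RP

variable {N : ℕ} {ι : Type} [Fintype ι] {l : ι → Fin N → ℚ} {b : ι → ℚ}

/-- the dual solution -/
theorem lpg_dual (hrec : ∀ z : Fin N → ℚ, (∀ s, 0 ≤ dotL (l s) z) → z = 0) {u p : Fin N → ℚ}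
    (hp : p ∈ Pg l b) (hmin : ∀ y ∈ Pg l b, dotL u p ≤ dotL u y) :
    ∃ w : ι → ℚ, (∀ s, 0 ≤ w s) ∧ (∀ y, dotL u y = ∑ s, w s * dotL (l s) y) ∧
      ∀ s, w s * (dotL (l s) p - b s) = 0 := by
  classical
  obtain ⟨ρ, hρ⟩ : ∃ ρ, ρ = dotL u p := ⟨_, rfl⟩
  rw [← hρ] at hmin
  let L : ι ⊕ Unit → ((Fin N → ℚ) × ℚ) →ₗ[ℚ] ℚ := Sum.elim
    (fun s => b s • LinearMap.snd ℚ _ _ - (dotL (l s)).comp (LinearMap.fst ℚ _ _))
    (fun _ => - LinearMap.snd ℚ _ _)
  obtain ⟨w, hw, hf⟩ := farkas_fin L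
    (ρ • LinearMap.snd ℚ (Fin N → ℚ) ℚ - (dotL u).comp (LinearMap.fst ℚ _ _)) (by
    rintro ⟨y, t⟩ hyt
    have h1 : ∀ s, b s * t - dotL (l s) y ≤ 0 := fun s => hyt (Sum.inl s)
    have h4 : - t ≤ 0 := hyt (Sum.inr ())
    change ρ * t - dotL u y ≤ 0
    rcases (show 0 ≤ t by linarith).lt_or_eq with ht | ht
    · have h6 := hmin (t⁻¹ • y) (fun s => by
        rw [map_smul, smul_eq_mul, inv_mul_eq_div, le_div_iff₀ ht]
        linarith [h1 s])
      rw [map_smul, smul_eq_mul, inv_mul_eq_div, le_div_iff₀ ht] at h6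
      linarith
    · have h8 : y = 0 := hrec y fun s => by
        have := h1 s
        rw [← ht, mul_zero] at this
        linarith
      rw [h8, map_zero, ← ht]
      simp)
  have key : ∀ (y : Fin N → ℚ) (t : ℚ), ρ * t - dotL u y =
      ∑ s, w (Sum.inl s) * (b s * t - dotL (l s) y) + w (Sum.inr ()) * (- t) := by
    intro y t
    have h3 : ρ * t - dotL u y = ∑ j, w j * L j (y, t) := hf (y, t)
    rw [Fintype.sum_sum_type,
      Fintype.sum_unique (fun a₂ : Unit => w (Sum.inr a₂) * (L (Sum.inr a₂)) (y, t))] at h3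
    exact h3
  refine ⟨fun s => w (Sum.inl s), fun s => hw _, fun y => ?_, ?_⟩
  · have h1 := key y 0
    simp only [mul_zero, zero_sub, neg_zero, add_zero, mul_neg] at h1
    rw [Finset.sum_neg_distrib] at h1
    linarith
  · have h1 := key p 1
    rw [mul_one, hρ, sub_self] at h1
    have h2 : ∑ s, w (Sum.inl s) * (dotL (l s) p - b s) + w (Sum.inr ()) = 0 := by
      have h3 : ∑ s, w (Sum.inl s) * (b s * 1 - dotL (l s) p) =
          -∑ s, w (Sum.inl s) * (dotL (l s) p - b s) := by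
        rw [← Finset.sum_neg_distrib]
        exact Finset.sum_congr rfl fun s _ => by ring
      rw [h3] at h1
      linarith
    have h4 : ∀ s, 0 ≤ w (Sum.inl s) * (dotL (l s) p - b s) := fun s =>
      mul_nonneg (hw _) (sub_nonneg.2 (hp s))
    have h5 : ∑ s, w (Sum.inl s) * (dotL (l s) p - b s) = 0 := by
      have h6 := Finset.sum_nonneg fun s (_ : s ∈ Finset.univ) => h4 s
      linarith [hw (Sum.inr ())]
    intro s
    exact (Finset.sum_eq_zero_iff_of_nonneg fun s _ => h4 s).1 h5 s (Finset.mem_univ s)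

/-- an optimal vertex -/
theorem exists_opt (hrec : ∀ z : Fin N → ℚ, (∀ s, 0 ≤ dotL (l s) z) → z = 0) (u : Fin N → ℚ)
    (hne : (Pg l b).Nonempty) :
    ∃ p ∈ Pg l b, actg l b p = ⊤ ∧ ∀ y ∈ Pg l b, dotL u p ≤ dotL u y := by
  classical
  obtain ⟨V, hV⟩ : ∃ V : Set (Fin N → ℚ), V = {p | p ∈ Pg l b ∧ actg l b p = ⊤} := ⟨_, rfl⟩
  have hfin : V.Finite := by
    refine Set.Finite.of_injOn (f := fun p => Finset.univ.filter fun s => dotL (l s) p = b s)
      (t := Set.univ) (fun _ _ => Set.mem_univ _) ?_ Set.finite_univ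
    intro p hp p' hp' heq
    rw [hV] at hp hp'
    have h1 : ∀ s, dotL (l s) p = b s → dotL (l s) p' = b s := by
      intro s hs
      have h2 : s ∈ Finset.univ.filter fun s => dotL (l s) p = b s := by simp [hs]
      have h3 : s ∈ Finset.univ.filter fun s => dotL (l s) p' = b s := by
        rw [← show (Finset.univ.filter fun s => dotL (l s) p = b s) =
          Finset.univ.filter fun s => dotL (l s) p' = b s from heq]
        exact h2
      exact (Finset.mem_filter.1 h3).2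
    have h2 : ∀ x, dotL x (p - p') = 0 := by
      intro x
      have hx : x ∈ actg l b p := by
        rw [hp.2]
        trivial
      unfold actg at hx
      induction hx using Submodule.span_induction with
      | mem x hx =>
        obtain ⟨s, hs, rfl⟩ := hx
        rw [map_sub, hs, h1 s hs, sub_self]
      | zero => simp [dotL_apply]
      | add x y _ _ hx hy =>
        rw [dotL_comm] at hx hy ⊢
        rw [map_add, hx, hy, add_zero]
      | smul a x _ hx =>
        rw [dotL_comm] at hx ⊢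
        rw [map_smul, hx, smul_zero]
    have h3 := h2 (p - p')
    rw [dotL_apply] at h3
    funext k
    have h4 := (Finset.sum_eq_zero_iff_of_nonneg fun k _ => mul_self_nonneg ((p - p') k)).1 h3 k
      (Finset.mem_univ k)
    have h5 := mul_self_eq_zero.1 h4
    rw [Pi.sub_apply] at h5
    linarith
  obtain ⟨y0, hy0⟩ := hne
  obtain ⟨p0, hp0, -, hact⟩ := exists_vertex_g hrec u hy0
  have hVne : V.Nonempty := ⟨p0, by rw [hV]; exact ⟨hp0, hact⟩⟩
  obtain ⟨p, hp, hmin⟩ := Set.exists_min_image V (fun p => dotL u p) hfin hVne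
  rw [hV] at hp
  refine ⟨p, hp.1, hp.2, fun y hy => ?_⟩
  obtain ⟨p', hp', hle, hact'⟩ := exists_vertex_g hrec u hy
  exact (hmin p' (by rw [hV]; exact ⟨hp', hact'⟩)).trans hle

/-- a basis of active rows -/
theorem exists_rows {p : Fin N → ℚ} (hact : actg l b p = ⊤) :
    ∃ I : Fin N → ι, (∀ i, dotL (l (I i)) p = b (I i)) ∧
      (Matrix.of fun i k => l (I i) k).det ≠ 0 := by
  classical
  let A : Type := {s : ι // dotL (l s) p = b s}
  let g : A → Fin N → ℚ := fun o => l o.1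
  obtain ⟨B, -, -, hb2, hb3⟩ := exists_linearIndepOn_extension (K := ℚ) (v := g) (s := ∅)
    (t := Set.univ) (linearIndepOn_empty ℚ g) (Set.subset_univ _)
  have htop : Submodule.span ℚ (g '' B) = ⊤ := by
    rw [eq_top_iff, ← hact]
    unfold actg
    rw [Submodule.span_le]
    rintro x ⟨s, hs, rfl⟩
    exact hb2 ⟨⟨s, hs⟩, Set.mem_univ _, rfl⟩
  have : Fintype B := Fintype.ofFinite B
  have hcard : Fintype.card B = N := by
    have h1 : LinearIndependent ℚ fun x : B => g x.1 := hb3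
    have h2 := finrank_span_eq_card h1
    have h3 : Set.range (fun x : B => g x.1) = g '' B := by
      rw [Set.image_eq_range]
    rw [h3, htop, finrank_top, Module.finrank_fin_fun] at h2
    exact h2.symm
  let e : Fin N ≃ B := (Fintype.equivFinOfCardEq hcard).symm
  refine ⟨fun i => (e i).1.1, fun i => (e i).1.2, fun h0 => ?_⟩
  have h1 : LinearIndependent ℚ (Matrix.of fun i k => l (e i).1.1 k : Matrix (Fin N) (Fin N) ℚ).row := by
    have h2 : LinearIndependent ℚ fun x : B => g x.1 := hb3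
    exact h2.comp e e.injective
  have h2 := (Matrix.isUnit_iff_isUnit_det _).1 (Matrix.linearIndependent_rows_iff_isUnit.1 h1)
  rw [h0] at h2
  simp at h2

/-- the point with given values of the rows `I` -/
noncomputable def vt (l : ι → Fin N → ℚ) (I : Fin N → ι) (b : ι → ℚ) : Fin N → ℚ :=
  (Matrix.of fun i k => l (I i) k)⁻¹.mulVec fun i => b (I i)

theorem eq_vt {I : Fin N → ι} (hdet : (Matrix.of fun i k => l (I i) k).det ≠ 0) {p : Fin N → ℚ}
    (hp : ∀ i, dotL (l (I i)) p = b (I i)) : p = vt l I b := by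
  have h1 : (Matrix.of fun i k => l (I i) k).mulVec p = fun i => b (I i) := by
    funext i
    rw [← hp i, Matrix.mulVec, dotProduct, dotL_apply]
    rfl
  unfold vt
  rw [← h1, Matrix.mulVec_mulVec, Matrix.nonsing_inv_mul _ (isUnit_iff_ne_zero.2 hdet),
    Matrix.one_mulVec]

/-- the coefficients of the slacks -/
noncomputable def cf [DecidableEq ι] (l : ι → Fin N → ℚ) (I : Fin N → ι) (s s' : ι) : ℚ :=
  (∑ i, (∑ k, l s k * (Matrix.of fun i k => l (I i) k)⁻¹ k i) * (if I i = s' then 1 else 0)) -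
    if s = s' then 1 else 0

theorem cf_sum [DecidableEq ι] (I : Fin N → ι) (s : ι) (b : ι → ℚ) :
    ∑ s', cf l I s s' * b s' = dotL (l s) (vt l I b) - b s := by
  have h1 : ∀ s', cf l I s s' * b s' = (∑ i, (∑ k, l s k *
      (Matrix.of fun i k => l (I i) k)⁻¹ k i) * (if I i = s' then 1 else 0) * b s') -
      (if s = s' then 1 else 0) * b s' := by
    intro s'
    unfold cf
    rw [sub_mul, Finset.sum_mul]
  rw [Finset.sum_congr rfl fun s' _ => h1 s', Finset.sum_sub_distrib]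
  congr 1
  · rw [dotL_apply]
    have h2 : ∀ k, l s k * vt l I b k =
        ∑ i : Fin N, l s k * (Matrix.of fun i k => l (I i) k)⁻¹ k i * b (I i) := by
      intro k
      have h3 : vt l I b k = ∑ i : Fin N, (Matrix.of fun i k => l (I i) k)⁻¹ k i * b (I i) := rfl
      rw [h3, Finset.mul_sum]
      exact Finset.sum_congr rfl fun i _ => by ring
    rw [Finset.sum_congr rfl fun k _ => h2 k]
    conv_lhs => rw [Finset.sum_comm]
    conv_rhs => rw [Finset.sum_comm]
    refine Finset.sum_congr rfl fun i _ => ?_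
    rw [Finset.sum_eq_single (I i)]
    · rw [if_pos rfl, mul_one, Finset.sum_mul]
    · intro s' _ hs'
      rw [if_neg (Ne.symm hs')]
      ring
    · intro h
      exact absurd (Finset.mem_univ _) h
  · rw [Finset.sum_eq_single s]
    · simp
    · intro s' _ hs'
      rw [if_neg (Ne.symm hs'), zero_mul]
    · intro h
      exact absurd (Finset.mem_univ _) h

/-- **Linear programs with real right hand sides.** -/
theorem real_lp (hrec : ∀ z : Fin N → ℚ, (∀ s, 0 ≤ dotL (l s) z) → z = 0) (br : ι → ℝ)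
    {κ : Type} [Fintype κ] (c : κ → ι → ℚ) (γ : κ → ℚ) :
    ∃ (M : ℕ) (r : Fin M → ℝ) (bq : Fin M → ι → ℚ), 0 < M ∧ (∀ σ, 0 < r σ) ∧ ∑ σ, r σ = 1 ∧
      (∀ s, br s = ∑ σ, r σ * bq σ s) ∧
      (∀ k σ, ((0 : ℝ) ≤ γ k + ∑ s, (c k s : ℝ) * br s → 0 ≤ γ k + ∑ s, c k s * bq σ s) ∧
        ((γ k : ℝ) + ∑ s, (c k s : ℝ) * br s = 0 → γ k + ∑ s, c k s * bq σ s = 0)) ∧
      ∀ (u : Fin N → ℚ) (σ0 : Fin M), (Pg l (bq σ0)).Nonempty → ∃ (w : ι → ℚ) (y : Fin M → Fin N → ℚ),
        (∀ s, 0 ≤ w s) ∧ (∀ z, dotL u z = ∑ s, w s * dotL (l s) z) ∧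
        (∀ σ, y σ ∈ Pg l (bq σ)) ∧ ∀ σ, dotL u (y σ) = ∑ s, w s * bq σ s := by
  classical
  obtain ⟨M, r, bq, hM, hr0, hr1, hbr, hsgn⟩ := rat_dec (κ := ((Fin N → ι) × ι) ⊕ κ) br
    (Sum.elim (fun k => cf l k.1 k.2) c) (Sum.elim (fun _ => 0) γ)
  refine ⟨M, r, bq, hM, hr0, hr1, hbr, fun k σ => ?_, fun u σ0 hne => ?_⟩
  · obtain ⟨h1, h2, -⟩ := hsgn (Sum.inr k) σ
    refine ⟨fun h => ?_, h2⟩
    rcases h.lt_or_eq with h3 | h3
    · exact (h1 h3).le
    · exact (h2 h3.symm).ge
  · obtain ⟨p, hp, hact, hmin⟩ := exists_opt hrec u hne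
    obtain ⟨w, hw, hu, hwp⟩ := lpg_dual hrec hp hmin
    obtain ⟨I, hI, hdet⟩ := exists_rows hact
    have hpe := eq_vt hdet hI
    -- the signs
    have hs0 : ∀ s, 0 + ∑ s', cf l I s s' * bq σ0 s' = dotL (l s) p - bq σ0 s := by
      intro s
      rw [zero_add, cf_sum, ← hpe]
    have key : ∀ s σ, bq σ s ≤ dotL (l s) (vt l I (bq σ)) ∧
        (dotL (l s) p = bq σ0 s → dotL (l s) (vt l I (bq σ)) = bq σ s) := by
      intro s σ
      obtain ⟨h1, h2, h3⟩ := hsgn (Sum.inl (I, s)) σ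
      obtain ⟨h4, h5, h6⟩ := hsgn (Sum.inl (I, s)) σ0
      simp only [Sum.elim_inl] at h1 h2 h3 h4 h5 h6
      rw [hs0] at h4 h5 h6
      rw [zero_add, cf_sum] at h1 h2 h3
      have h7 := hp s
      rcases lt_trichotomy (((0 : ℚ) : ℝ) + ∑ s', ((cf l I s s' : ℚ) : ℝ) * br s') 0 with h | h | h
      · have := h6 h
        linarith
      · have h8 := h2 h
        exact ⟨by linarith, fun _ => by linarith⟩
      · have h8 := h1 h
        refine ⟨by linarith, fun h9 => ?_⟩
        have := h4 h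
        linarith
    refine ⟨w, fun σ => vt l I (bq σ), hw, hu, fun σ s => (key s σ).1, fun σ => ?_⟩
    rw [hu]
    refine Finset.sum_congr rfl fun s _ => ?_
    rcases mul_eq_zero.1 (hwp s) with h | h
    · rw [h, zero_mul, zero_mul]
    · rw [(key s σ).2 (by linarith)]

end Pool.Agent.H172.RP
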