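import Pool.Agent.H172.RP.Ord

/-!
The numerical dimension of pairs with real coefficients.
-/

set_option autoImplicit false
set_option linter.overlappingInstances false
set_option linter.unusedSectionVars false
set_option maxHeartbeats 1000000

open FF MvPolynomial Pool.Agent.W603.LV Pool.Agent.W602.GT Pool.Agent.W602.Cov
open Pool.Agent.TH756.PR Pool.Agent.TH122.AB Pool.Agent.TH756.PN Pool.Agent.Y169.CH
open Pool.Agent.H172.EG Pool.Agent.H172.LG

namespace Pool.Agent.H172.RP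

variable {r R : ℕ} {n : Fin r → ℕ} {K : Type} [Field K] [Algebra ℂ K] {d : ℕ}
  {e : ((i : Fin r) × Fin (n i)) ≃ Fin (d + 1)} {dF : Fin r → ℕ} (Θ : Nc e dF K R)

/-- the bound for the exponents in a block -/
theorem block_bound {I : Type} [Fintype I] {D n' w a rr : I → ℕ} {m c V : ℕ} {γ : ℝ}
    (hD : ∀ t, 1 ≤ D t) (hub : ∀ t, (D t : ℝ) * a t + rr t ≤ ((D t : ℝ) - n' t - 1) * m + 2 * c)
    (hw1 : ∑ t, (((D t : ℝ) - n' t - 1) / D t) * w t ≤ γ)
    (h2 : (m : ℝ) * γ - 2 * c ≤ ∑ t, (w t : ℝ) * a t) (hwV : ∑ t, w t ≤ V) {t0 : I}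
    (hw0 : 1 ≤ w t0) :
    ((D t0 : ℝ) - n' t0 - 1) * m + 2 * c - D t0 * a t0 ≤ 2 * c * (1 + V) * D t0 := by
  classical
  have hDq : ∀ t, (0 : ℝ) < D t := fun t => by
    have := hD t
    exact_mod_cast (by omega : 0 < D t)
  obtain ⟨x, hx⟩ : ∃ x : I → ℝ, x = fun t => ((D t : ℝ) - n' t - 1) * m + 2 * c -
    D t * a t := ⟨_, rfl⟩
  have hx0 : ∀ t, 0 ≤ x t := by
    intro t
    rw [hx]
    have := hub t
    have h3 : (0 : ℝ) ≤ rr t := by positivity
    dsimp only
    linarith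
  have hsum : ∑ t, (w t : ℝ) * x t / D t ≤ 2 * c * (1 + V) := by
    have h3 : ∀ t, (w t : ℝ) * x t / D t = ((((D t : ℝ) - n' t - 1) / D t) * w t) * m +
        (w t : ℝ) / D t * (2 * c) - w t * a t := by
      intro t
      rw [hx]
      have := (hDq t).ne'
      field_simp
    rw [Finset.sum_congr rfl fun t _ => h3 t, Finset.sum_sub_distrib, Finset.sum_add_distrib,
      ← Finset.sum_mul, ← Finset.sum_mul]
    have h5 : ∑ t, (w t : ℝ) / D t ≤ V := by
      calc ∑ t, (w t : ℝ) / D t ≤ ∑ t, (w t : ℝ) := by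
            refine Finset.sum_le_sum fun t _ => ?_
            rw [div_le_iff₀ (hDq t)]
            have h6 : (1 : ℝ) ≤ D t := by exact_mod_cast hD t
            nlinarith [Nat.cast_nonneg (α := ℝ) (w t)]
        _ ≤ V := by exact_mod_cast hwV
    have h6 : (∑ t, (w t : ℝ) / D t) * (2 * c) ≤ V * (2 * c) :=
      mul_le_mul_of_nonneg_right h5 (by positivity)
    have h7 : (∑ t, (((D t : ℝ) - n' t - 1) / D t) * w t) * m ≤ γ * m :=
      mul_le_mul_of_nonneg_right hw1 (by positivity)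
    linarith
  have h3 : (w t0 : ℝ) * x t0 / D t0 ≤ ∑ t, (w t : ℝ) * x t / D t :=
    Finset.single_le_sum (f := fun t => (w t : ℝ) * x t / D t)
      (fun t _ => div_nonneg (mul_nonneg (by positivity) (hx0 t)) (hDq t).le)
      (Finset.mem_univ t0)
  have h4 := h3.trans hsum
  rw [div_le_iff₀ (hDq t0)] at h4
  have h5 : (1 : ℝ) ≤ w t0 := by exact_mod_cast hw0
  have h6 : 1 * x t0 ≤ w t0 * x t0 := mul_le_mul_of_nonneg_right h5 (hx0 t0)
  have h7 : x t0 = ((D t0 : ℝ) - n' t0 - 1) * m + 2 * c - D t0 * a t0 := by rw [hx]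
  linarith

/-- **The numerical dimension.** -/
theorem num_leR (I : Finset (Fin r)) {δ0 : (Fin r → ℕ) → ℝ} (hδ0 : ∀ v, δ0 v ≤ 1)
    (hI : ∀ t, t ∉ I → ∃ v : Fin r → ℕ, v t ≠ 0 ∧ Prim Θ.C.M Θ.C.a v ∧
      ∑ s, (((dF s : ℝ) - n s - 1) / dF s) * v s ≤ 1 - δ0 v) (S : Finset K) :
    ∃ C1 : ℕ, ∀ (m N : ℕ), 1 ≤ m → ∀ ω : Fin N → (Fin (d + 1) → Derivation ℂ K K) → K,
      LinearIndependent ℂ ω → (∀ l, SecP (d + 1) (VT Θ) (dT Θ δ0) S m (ω l)) →
      N ≤ C1 * m ^ (∑ t ∈ I, n t) := by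
  classical
  obtain ⟨D0, hD00⟩ := exists_dual Θ.C.hZ
  have hD : ∀ i j, D0 i (Θ.C.Z j) = if i = j then 1 else 0 := by
    intro i j
    have h1 := congrFun (congrFun hD00 i) j
    rw [Matrix.of_apply, Matrix.one_apply] at h1
    exact h1
  choose! v hv0 hvT hv1 using hI
  have hex : ∀ s : {t // t ∉ I}, ∃ T : Θ.C.Dir, T.v = v s.1 := fun s =>
    Θ.C.exists_dir (hvT s.1 s.2).1.1 (hvT s.1 s.2).1.2
  choose T hTv using hex
  obtain ⟨δ', β, Q0, c, hQ, hmem⟩ := sec_memP Θ T (fun s => by rw [hTv]; exact hvT s.1 s.2) S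
    hδ0 hD
  obtain ⟨V, hV⟩ : ∃ V : ℕ, V = ∑ s : {t // t ∉ I}, ∑ t, v s.1 t := ⟨_, rfl⟩
  obtain ⟨DD, hDD⟩ : ∃ DD : ℕ, DD = ∑ t, dF t := ⟨_, rfl⟩
  obtain ⟨E, hE⟩ : ∃ E : ℕ, E = 4 * c * (1 + V) * DD + DD + 2 * c := ⟨_, rfl⟩
  have hDle : ∀ t, dF t ≤ DD := by
    intro t
    rw [hDD]
    exact Finset.single_le_sum (f := fun t => dF t) (fun _ _ => Nat.zero_le _)
      (Finset.mem_univ t)
  refine ⟨δ' * (E + 2) ^ (d + 1), fun m N hm ω hlin hsec => ?_⟩
  -- the right-hand side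
  obtain ⟨hi, hhi⟩ : ∃ hi : Fin r → ℤ, hi = fun t => ((dF t : ℤ) - n t - 1) * m + c * (1 + 1) :=
    ⟨_, rfl⟩
  -- the box
  let Q : Fin (d + 1) → Finset ℕ := fun b => if Θ.Bl.τ b ∈ I then Finset.range ((E + 2) * m) else
    if b = Θ.Bl.c (Θ.Bl.τ b) then Finset.Icc ((hi (Θ.Bl.τ b) - E) / dF (Θ.Bl.τ b)).toNat
      (hi (Θ.Bl.τ b) / dF (Θ.Bl.τ b)).toNat else Finset.range (E + 1)
  have hcardQ : ∀ b, (Q b).card ≤ (E + 2) * (if Θ.Bl.τ b ∈ I then m else 1) := by
    intro b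
    simp only [Q]
    split_ifs with h1 h2
    · rw [Finset.card_range]
    · rw [Nat.card_Icc, mul_one]
      have hD : (0 : ℤ) < dF (Θ.Bl.τ b) := by exact_mod_cast Θ.hdF _
      have h3 : hi (Θ.Bl.τ b) / dF (Θ.Bl.τ b) ≤ (hi (Θ.Bl.τ b) - E) / dF (Θ.Bl.τ b) + E := by
        have h4 : hi (Θ.Bl.τ b) / dF (Θ.Bl.τ b) ≤
            (hi (Θ.Bl.τ b) - E + E * dF (Θ.Bl.τ b)) / dF (Θ.Bl.τ b) := by
          apply Int.ediv_le_ediv hD
          have h5 : (E : ℤ) * 1 ≤ E * dF (Θ.Bl.τ b) :=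
            mul_le_mul_of_nonneg_left (by omega) (by positivity)
          linarith
        rwa [Int.add_mul_ediv_right _ _ hD.ne'] at h4
      omega
    · rw [Finset.card_range]
      omega
  let A : Finset (Fin (d + 1) →₀ ℕ) := (Fintype.piFinset Q).image Finsupp.equivFunOnFinite.symm
  have hA : A.card ≤ (E + 2) ^ (d + 1) * m ^ (∑ t ∈ I, n t) := by
    calc A.card ≤ (Fintype.piFinset Q).card := Finset.card_image_le
      _ = ∏ b, (Q b).card := Fintype.card_piFinset Q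
      _ ≤ ∏ b, ((E + 2) * (if Θ.Bl.τ b ∈ I then m else 1)) :=
          Finset.prod_le_prod' fun b _ => hcardQ b
      _ = (E + 2) ^ (d + 1) * m ^ (∑ t ∈ I, n t) := by
          rw [Finset.prod_mul_distrib, Finset.prod_const, Finset.card_univ, Fintype.card_fin]
          congr 1
          rw [Finset.prod_ite, Finset.prod_const, Finset.prod_const_one, mul_one]
          congr 1
          have h1 : (Finset.univ.filter fun b => Θ.Bl.τ b ∈ I) =
              I.biUnion fun t => Finset.univ.filter fun b => Θ.Bl.τ b = t := by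
            ext b
            simp
          rw [h1, Finset.card_biUnion]
          · exact Finset.sum_congr rfl fun t _ => hblk_n e Θ.hn Θ.hdF Θ.hh Θ.hF3 t
          · intro s _ t _ hst
            rw [Function.onFun, Finset.disjoint_left]
            intro b hb hb'
            rw [Finset.mem_filter] at hb hb'
            exact hst (hb.2.symm.trans hb'.2)
  -- the exponents lie in the box
  have hbox : ∀ a : Fin (d + 1) →₀ ℕ,
      (∀ t, (Θ.Bl.wbd a t : ℤ) ≤ ((dF t : ℤ) - n t - 1) * m + c * (1 + 1)) →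
      (∀ s, (m : ℝ) * (1 - δ0 (T s).v) - c * (1 + 1) ≤
        ∑ t, ((T s).v t : ℝ) * a (Θ.Bl.c t)) → a ∈ A := by
    intro a ha1 ha2
    refine Finset.mem_image.2 ⟨Finsupp.equivFunOnFinite a, ?_, by simp⟩
    rw [Fintype.mem_piFinset]
    intro b
    change a b ∈ Q b
    have hb0 : a b ≤ Θ.Bl.wbd a (Θ.Bl.τ b) := Cvr.le_wbd a b
    have hb1 := ha1 (Θ.Bl.τ b)
    simp only [Q]
    by_cases hbI : Θ.Bl.τ b ∈ I
    · rw [if_pos hbI, Finset.mem_range]
      have h1 : (a b : ℤ) ≤ ((dF (Θ.Bl.τ b) : ℤ) - n (Θ.Bl.τ b) - 1) * m + c * (1 + 1) := by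
        refine le_trans ?_ hb1
        exact_mod_cast hb0
      have h2 : (a b : ℤ) < ((E + 2) * m : ℕ) := by
        push_cast
        have h3 : (dF (Θ.Bl.τ b) : ℤ) ≤ DD := by exact_mod_cast hDle _
        have h4 : (1 : ℤ) ≤ m := by exact_mod_cast hm
        have h5 : (E : ℤ) = 4 * c * (1 + V) * DD + DD + 2 * c := by exact_mod_cast hE
        have h6 : ((dF (Θ.Bl.τ b) : ℤ) - n (Θ.Bl.τ b) - 1) * m ≤ DD * m :=
          mul_le_mul_of_nonneg_right (by
            have : (0 : ℤ) ≤ n (Θ.Bl.τ b) := by positivity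
            linarith) (by linarith)
        have h7 : (c : ℤ) * (1 + 1) ≤ 2 * c * m := by nlinarith [Int.natCast_nonneg c]
        have h8 : (0 : ℤ) ≤ 4 * c * (1 + V) * DD * m := by positivity
        rw [h5]
        nlinarith
      exact_mod_cast h2
    · rw [if_neg hbI]
      obtain ⟨t0, ht0⟩ : ∃ t0, t0 = Θ.Bl.τ b := ⟨_, rfl⟩
      rw [← ht0] at hbI hb1 ⊢
      have h2 := ha2 ⟨t0, hbI⟩
      rw [hTv] at h2
      obtain ⟨w, hw⟩ : ∃ w, w = v t0 := ⟨_, rfl⟩
      have hw0 : 1 ≤ w t0 := by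
        rw [hw]
        exact Nat.one_le_iff_ne_zero.2 (hv0 t0 hbI)
      have hw1 := hv1 t0 hbI
      have hwV : ∑ t, w t ≤ V := by
        rw [hw, hV]
        exact Finset.single_le_sum (f := fun s : {t // t ∉ I} => ∑ t, v s.1 t)
          (fun _ _ => Nat.zero_le _) (Finset.mem_univ (⟨t0, hbI⟩ : {t // t ∉ I}))
      simp only [← hw] at h2 hw1
      -- the deficiencies
      obtain ⟨rr, hrr⟩ : ∃ rr : Fin r → ℕ, rr = fun t => ∑ b ∈ Finset.univ.erase (Θ.Bl.c t),
        if Θ.Bl.τ b = t then a b else 0 := ⟨_, rfl⟩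
      have hwb : ∀ t, Θ.Bl.wbd a t = dF t * a (Θ.Bl.c t) + rr t := by
        intro t
        have h5 : Θ.Bl.wbd a t = Θ.Bl.D t * a (Θ.Bl.c t) + _ := Cvr.wbd_c a t
        rw [h5, hrr]
        rfl
      have hub : ∀ t, (dF t : ℝ) * a (Θ.Bl.c t) + rr t ≤
          ((dF t : ℝ) - n t - 1) * m + 2 * c := by
        intro t
        have h3 := ha1 t
        rw [hwb] at h3
        have h4 : (((dF t * a (Θ.Bl.c t) + rr t : ℕ) : ℤ) : ℝ) ≤
            ((((dF t : ℤ) - n t - 1) * m + c * (1 + 1) : ℤ) : ℝ) := Int.cast_le.2 h3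
        push_cast at h4
        linarith
      have hxt := block_bound (a := fun t => a (Θ.Bl.c t)) Θ.hdF hub hw1 (by linarith) hwV hw0
      have hEq : (E : ℝ) = 4 * c * (1 + V) * DD + DD + 2 * c := by exact_mod_cast hE
      have hxE : ((dF t0 : ℝ) - n t0 - 1) * m + 2 * c - dF t0 * a (Θ.Bl.c t0) ≤ E := by
        have h3 : (dF t0 : ℝ) ≤ DD := by exact_mod_cast hDle t0
        have h4 : (2 : ℝ) * c * (1 + V) * dF t0 ≤ 2 * c * (1 + V) * DD :=
          mul_le_mul_of_nonneg_left h3 (by positivity)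
        have h5 : (0 : ℝ) ≤ 2 * c * (1 + V) * DD := by positivity
        have h6 : (0 : ℝ) ≤ DD := by positivity
        have h7 : (0 : ℝ) ≤ 2 * c := by positivity
        rw [hEq]
        linarith
      by_cases hbc : b = Θ.Bl.c t0
      · rw [if_pos hbc, Finset.mem_Icc, hbc]
        have hhi' : ((hi t0 : ℤ) : ℝ) = ((dF t0 : ℝ) - n t0 - 1) * m + 2 * c := by
          rw [hhi]
          push_cast
          ring
        have hD : (0 : ℤ) < dF t0 := by exact_mod_cast Θ.hdF _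
        have h3 : hi t0 - E ≤ (dF t0 : ℤ) * a (Θ.Bl.c t0) := by
          have : (hi t0 : ℝ) - E ≤ (dF t0 : ℝ) * a (Θ.Bl.c t0) := by linarith
          exact_mod_cast this
        have h4 : (dF t0 : ℤ) * a (Θ.Bl.c t0) ≤ hi t0 := by
          have h5 := hub t0
          have h6 : (0 : ℝ) ≤ rr t0 := by positivity
          have : (dF t0 : ℝ) * a (Θ.Bl.c t0) ≤ hi t0 := by linarith
          exact_mod_cast this
        constructor
        · rw [Int.toNat_le]
          exact Int.ediv_le_of_le_mul hD (by linarith)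
        · have h5 : (a (Θ.Bl.c t0) : ℤ) ≤ hi t0 / dF t0 := by
            rw [Int.le_ediv_iff_mul_le hD]
            linarith
          omega
      · rw [if_neg hbc, Finset.mem_range]
        have h3 : a b ≤ rr t0 := by
          rw [hrr]
          have h4 := Finset.single_le_sum (f := fun b' => if Θ.Bl.τ b' = t0 then a b' else 0)
            (fun _ _ => Nat.zero_le _) (Finset.mem_erase.2 ⟨hbc, Finset.mem_univ b⟩)
          simpa only [← ht0, if_true] using h4
        have h4 : (a b : ℝ) ≤ E := by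
          have h5 : (a b : ℝ) ≤ rr t0 := by exact_mod_cast h3
          have h6 := hub t0
          linarith
        have h5 : a b ≤ E := by exact_mod_cast h4
        omega
  -- the span
  let W : Submodule ℂ K := Submodule.span ℂ (Set.range fun p : A × Fin δ' =>
    aeval Θ.C.Y (monomial p.1.1 (1 : ℂ)) * β p.2)
  have hW1 : Module.finrank ℂ W ≤ A.card * δ' := by
    refine (finrank_range_le_card _).trans (le_of_eq ?_)
    rw [Fintype.card_prod, Fintype.card_coe, Fintype.card_fin]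
  have hWfin : FiniteDimensional ℂ W := FiniteDimensional.span_of_finite ℂ (Set.finite_range _)
  obtain ⟨κ, hκ⟩ : ∃ κ : K, κ = Θ.C.Lam m * Q0 ^ (1 + 1) := ⟨_, rfl⟩
  have hκ0 : κ ≠ 0 := by
    rw [hκ]
    exact mul_ne_zero (Θ.C.Lam_ne m) (pow_ne_zero _ hQ)
  have hmemW : ∀ l, ω l D0 * κ ∈ W := by
    intro l
    obtain ⟨R0, hR1, hR2⟩ := hmem m 1 (ω l) (by rw [Cvr.pw_one]; exact hsec l)
    rw [hκ, ← mul_assoc, hR1]
    refine Submodule.sum_mem _ fun i _ => ?_
    rw [(R0 i).as_sum, map_sum, Finset.sum_mul]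
    refine Submodule.sum_mem _ fun a ha => ?_
    have h1 : monomial a (coeff a (R0 i)) = coeff a (R0 i) • monomial a (1 : ℂ) := by
      rw [smul_monomial, smul_eq_mul, mul_one]
    obtain ⟨h2, h3⟩ := hR2 i a ha
    rw [h1, map_smul, smul_mul_assoc]
    refine Submodule.smul_mem _ _ (Submodule.subset_span ⟨(⟨a, hbox a h2 fun s => ?_⟩, i), rfl⟩)
    have h4 := h3 s
    push_cast at h4
    exact h4
  have hlin2 : LinearIndependent ℂ fun l => (⟨ω l D0 * κ, hmemW l⟩ : W) := by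
    rw [Fintype.linearIndependent_iff]
    intro g hg
    have h1 : (∑ l, g l • (ω l D0)) * κ = 0 := by
      have h2 := congrArg (Subtype.val) hg
      rw [AddSubmonoidClass.coe_finsetSum] at h2
      rw [Finset.sum_mul, ← show ((0 : W) : K) = 0 from rfl, ← h2]
      exact Finset.sum_congr rfl fun l _ => by
        rw [smul_mul_assoc]
        rfl
    have h2 : ∑ l, g l • (ω l D0) = 0 := (mul_eq_zero.1 h1).resolve_right hκ0
    refine Fintype.linearIndependent_iff.1 hlin g ?_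
    funext Dv
    obtain ⟨B, rfl⟩ := EG.exists_mat Θ.C.hZ hD Dv
    rw [Finset.sum_apply, Pi.zero_apply]
    have h3 : ∀ l, (g l • ω l) (fun i => ∑ j, B i j • D0 j) = B.det ^ m * (g l • (ω l D0)) := by
      intro l
      rw [Pi.smul_apply, (hsec l).1 B D0, mul_smul_comm]
    rw [Finset.sum_congr rfl fun l _ => h3 l, ← Finset.mul_sum, h2, mul_zero]
  have h1 := hlin2.fintype_card_le_finrank
  rw [Fintype.card_fin] at h1
  calc N ≤ A.card * δ' := h1.trans hW1
    _ ≤ ((E + 2) ^ (d + 1) * m ^ (∑ t ∈ I, n t)) * δ' := Nat.mul_le_mul_right _ hA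
    _ = _ := by ring

end Pool.Agent.H172.RP
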