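import Pool.Agent.H172.LG.Fin
import Pool.Agent.H172.RP.Lp

/-!
The asymptotic orders of pairs with real coefficients.
-/

set_option autoImplicit false
set_option linter.overlappingInstances false
set_option linter.unusedSectionVars false
set_option maxHeartbeats 1000000

open FF MvPolynomial Pool.Agent.W603.LV Pool.Agent.W602.GT Pool.Agent.W602.Cov
open Pool.Agent.TH756.PR Pool.Agent.TH122.AB Pool.Agent.TH756.PN Pool.Agent.Y169.CH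
open Pool.Agent.TH152.AC
open Pool.Agent.Y169.TH (dotL dotL_apply)
open Pool.Agent.H172.EG Pool.Agent.H172.LG

namespace Pool.Agent.H172.RP

variable {r R : ℕ} {n : Fin r → ℕ} {K : Type} [Field K] [Algebra ℂ K] {d : ℕ}
  {e : ((i : Fin r) × Fin (n i)) ≃ Fin (d + 1)} {dF : Fin r → ℕ} (Θ : Nc e dF K R)

variable {ι : Type} [Fintype ι] {ρ : ι → Fin r → ℕ}

/-- the right hand sides -/
def rhsR (n dF : Fin r → ℕ) (ρ : ι → Fin r → ℕ) (δ : (Fin r → ℕ) → ℝ) : Fin r ⊕ ι → ℝ :=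
  Sum.elim (fun i => -((dF i : ℝ) - n i - 1)) fun s => 1 - δ (ρ s)

/-- **The bound for the orders.** -/
theorem ord_boundQ (P : Place ℂ K) (S : Finset K)
    (hρ : ∀ s, Prim Θ.C.M Θ.C.a (ρ s)) {δ : (Fin r → ℕ) → ℝ} (hδ : ∀ v, δ v ≤ 1)
    {D0 : Fin (d + 1) → Derivation ℂ K K} (hD : ∀ i j, D0 i (Θ.C.Z j) = if i = j then 1 else 0)
    {α : Fin r → ℤ} {v : Fin r → ℕ} {j : ∀ i, Fin (n i + 1)} (hα : ∀ i, α i ≤ 0)
    (hdat : Θ.Dt P α v j) {w : Fin r ⊕ ι → ℚ} (hw0 : ∀ s, 0 ≤ w s)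
    (hu : ∀ z : Fin r → ℚ, dotL (fun k => (v k : ℚ)) z =
      ∑ s, w s * dotL (fun k => ((rowr dF ρ s k : ℤ) : ℚ)) z) {E : ℕ} (hE0 : 0 < E) {V : ℝ}
    (hV : V ≤ E * ∑ s, (w s : ℝ) * rhsR n dF ρ δ s) :
    ∃ c : ℕ, ∀ (m : ℕ) (ω : (Fin (d + 1) → Derivation ℂ K K) → K),
      SecP (d + 1) (VT Θ) (dT Θ δ) S m ω → ω D0 ≠ 0 →
      (m : ℝ) * (- (E * ((∑ i, ((n i : ℤ) + 1) * α i : ℤ) : ℝ)) + V -
        E * ((∑ i, (v i : ℤ) : ℤ) : ℝ)) ≤ E * P.ord (ω D0) + c := by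
  classical
  have hDq : (0 : ℝ) < E := by exact_mod_cast hE0
  choose T hT using fun s : ι => Θ.C.exists_dir (hρ s).1.1 (hρ s).1.2
  obtain ⟨δ', β, Q, c, hQ, hmem⟩ := sec_memP Θ T (fun s => by rw [hT]; exact hρ s) S
    (δ0 := δ) hδ hD
  obtain ⟨A0, hA0⟩ : ∃ A0 : ℝ, A0 = ∑ s, (w s : ℝ) := ⟨_, rfl⟩
  obtain ⟨Rr, hRr⟩ : ∃ Rr : ℝ, Rr = ∑ s, (w s : ℝ) * rhsR n dF ρ δ s := ⟨_, rfl⟩
  rw [← hRr] at hV
  -- the constants
  obtain ⟨cβ, hcβ⟩ : ∃ cβ : ℕ, ∀ i, Ge P (-(cβ : ℤ)) (β i) := by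
    refine ⟨∑ i, (P.ord (β i)).natAbs, fun i => ?_⟩
    right
    have h1 : (P.ord (β i)).natAbs ≤ ∑ i, (P.ord (β i)).natAbs :=
      Finset.single_le_sum (f := fun i => (P.ord (β i)).natAbs) (fun _ _ => Nat.zero_le _)
        (Finset.mem_univ i)
    omega
  obtain ⟨A1, hA1⟩ := exists_nat_ge ((E : ℝ) * (A0 * (2 * c)))
  obtain ⟨αs, hαs⟩ : ∃ αs : ℤ, αs = ∑ i, α i := ⟨_, rfl⟩
  have hαs0 : αs ≤ 0 := by
    rw [hαs]
    exact Finset.sum_nonpos fun i _ => hα i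
  obtain ⟨c3, hc3⟩ : ∃ c3 : ℕ, c3 = cβ + 2 * (P.ord Q).natAbs + 2 * c * αs.natAbs := ⟨_, rfl⟩
  refine ⟨A1 + E * c3, fun m ω hω hω0 => ?_⟩
  obtain ⟨R0, hR1, hR2⟩ := hmem m 1 ω (by rw [Cvr.pw_one]; exact hω)
  obtain ⟨μ, hμ⟩ : ∃ μ : ℤ, μ = ⌈Rr * m - A0 * (2 * c)⌉ := ⟨_, rfl⟩
  obtain ⟨X, hX⟩ : ∃ X : ℤ, X = ∑ t, (((dF t : ℤ) - n t - 1) * m + 2 * c) * α t := ⟨_, rfl⟩
  have hsupp : ∀ i, ∀ a ∈ (R0 i).support, X + μ ≤
      ∑ t, (Θ.Bl.wbd a t : ℤ) * α t + ∑ t, (a (Θ.Bl.c t) : ℤ) * v t := by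
    intro i a ha
    obtain ⟨h1, h2⟩ := hR2 i a ha
    have h1' : ∀ t, (Θ.Bl.wbd a t : ℤ) ≤ ((dF t : ℤ) - n t - 1) * m + 2 * c := by
      intro t
      refine (h1 t).trans (le_of_eq ?_)
      push_cast
      ring
    refine add_le_add ?_ ?_
    · rw [hX]
      refine Finset.sum_le_sum fun t _ => ?_
      exact mul_le_mul_of_nonpos_right (h1' t) (hα t)
    · rw [hμ, Int.ceil_le]
      have hrow : ∀ s, rhsR n dF ρ δ s * m - 2 * c ≤
          ((dotL (fun k => ((rowr dF ρ s k : ℤ) : ℚ)) (fun t => (a (Θ.Bl.c t) : ℚ)) : ℚ) : ℝ) := by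
        intro s
        rcases s with t | s
        · rw [rowr_inl]
          simp only [rhsR, Sum.elim_inl]
          have h4 : ((dF t * a (Θ.Bl.c t) : ℕ) : ℤ) ≤ ((dF t : ℤ) - n t - 1) * m + 2 * c := by
            refine le_trans ?_ (h1' t)
            have h5 : Θ.Bl.wbd a t = Θ.Bl.D t * a (Θ.Bl.c t) + _ := Cvr.wbd_c a t
            rw [h5]
            exact_mod_cast Nat.le_add_right _ _
          have h5 : (((dF t * a (Θ.Bl.c t) : ℕ) : ℤ) : ℝ) ≤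
            ((((dF t : ℤ) - n t - 1) * m + 2 * c : ℤ) : ℝ) := Int.cast_le.2 h4
          push_cast at h5 ⊢
          linarith
        · rw [rowr_inr]
          simp only [rhsR, Sum.elim_inr]
          have h4 := h2 s
          rw [hT] at h4
          push_cast at h4 ⊢
          linarith
      have h3 : ((∑ t, (a (Θ.Bl.c t) : ℤ) * v t : ℤ) : ℝ) =
          ∑ s, (w s : ℝ) * ((dotL (fun k => ((rowr dF ρ s k : ℤ) : ℚ))
            (fun t => (a (Θ.Bl.c t) : ℚ)) : ℚ) : ℝ) := by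
        have h4 : ((∑ t, (a (Θ.Bl.c t) : ℤ) * v t : ℤ) : ℚ) =
            dotL (fun k => (v k : ℚ)) (fun t => (a (Θ.Bl.c t) : ℚ)) := by
          rw [dotL_apply]
          push_cast
          exact Finset.sum_congr rfl fun t _ => by ring
        have h5 : ((∑ t, (a (Θ.Bl.c t) : ℤ) * v t : ℤ) : ℝ) =
            (((∑ t, (a (Θ.Bl.c t) : ℤ) * v t : ℤ) : ℚ) : ℝ) := by
          push_cast
          rfl
        rw [h5, h4, hu]
        push_cast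
        rfl
      rw [h3, hRr, hA0, Finset.sum_mul, Finset.sum_mul, ← Finset.sum_sub_distrib]
      refine Finset.sum_le_sum fun s _ => ?_
      have h6 := mul_le_mul_of_nonneg_left (hrow s) (show (0 : ℝ) ≤ w s by exact_mod_cast hw0 s)
      refine le_trans (le_of_eq ?_) h6
      ring
  -- the order of the right hand side
  have hrhs : Ge P (X + μ - cβ) (∑ i, aeval Θ.C.Y (R0 i) * β i) := by
    refine Ge.sum _ _ fun i _ => ?_
    refine ((Θ.ge_poly hdat (hsupp i)).mul (hcβ i)).mono (le_of_eq ?_)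
    ring
  rw [← hR1] at hrhs
  have hlhs := hrhs.resolve_left (mul_ne_zero (mul_ne_zero hω0 (Θ.C.Lam_ne m))
    (pow_ne_zero _ hQ))
  rw [P.ord_mul (mul_ne_zero hω0 (Θ.C.Lam_ne m)) (pow_ne_zero _ hQ),
    P.ord_mul hω0 (Θ.C.Lam_ne m), P.ord_pow, Θ.C.ord_Lam] at hlhs
  have hsumF : ∑ t, P.ord (aeval Θ.C.Z ((hblk e Θ.hn Θ.hdF Θ.hh Θ.hF3).F t)) =
      ∑ t, (dF t : ℤ) * α t + ∑ t, (v t : ℤ) := by
    rw [← Finset.sum_add_distrib]
    exact Finset.sum_congr rfl fun t _ => by rw [Θ.Fx, hdat.hv]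
  rw [hsumF] at hlhs
  have hXe : X = m * ∑ t, (dF t : ℤ) * α t - m * ∑ i, ((n i : ℤ) + 1) * α i + 2 * c * αs := by
    rw [hX, hαs, Finset.mul_sum, Finset.mul_sum, Finset.mul_sum, ← Finset.sum_sub_distrib,
      ← Finset.sum_add_distrib]
    exact Finset.sum_congr rfl fun t _ => by ring
  -- the estimate for `μ`
  have hμ1 : (m : ℝ) * V - A1 ≤ E * μ := by
    have h1 : Rr * m - A0 * (2 * c) ≤ μ := by
      rw [hμ]
      exact Int.le_ceil _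
    have h2 := mul_le_mul_of_nonneg_left h1 hDq.le
    have h3 := mul_le_mul_of_nonneg_left hV (show (0 : ℝ) ≤ m by positivity)
    nlinarith
  have hQa : -((P.ord Q).natAbs : ℤ) ≤ P.ord Q ∧ P.ord Q ≤ (P.ord Q).natAbs := by omega
  have hαa : ((αs.natAbs : ℕ) : ℤ) = -αs := by omega
  have hfin : μ - c3 - m * ∑ i, ((n i : ℤ) + 1) * α i - m * ∑ k, (v k : ℤ) ≤ P.ord (ω D0) := by
    rw [hc3]
    push_cast
    have h1 : |αs| = -αs := abs_of_nonpos hαs0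
    have h2 : |P.ord Q| = ((P.ord Q).natAbs : ℤ) := Int.abs_eq_natAbs _
    rw [h1, h2]
    push_cast at hlhs
    rw [hXe] at hlhs
    have h3 : (0 : ℤ) ≤ c := by positivity
    nlinarith [hQa.1, hQa.2, mul_nonneg h3 (neg_nonneg.2 hαs0)]
  have hfinR : (μ : ℝ) - c3 - m * ((∑ i, ((n i : ℤ) + 1) * α i : ℤ) : ℝ) -
      m * ((∑ k, (v k : ℤ) : ℤ) : ℝ) ≤ P.ord (ω D0) := by
    have h1 := (Int.cast_le (R := ℝ)).2 hfin
    rw [Int.cast_sub, Int.cast_sub, Int.cast_sub, Int.cast_mul, Int.cast_mul, Int.cast_natCast,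
      Int.cast_natCast] at h1
    exact h1
  have h1 := mul_le_mul_of_nonneg_left hfinR hDq.le
  rw [Nat.cast_add, Nat.cast_mul]
  generalize ((∑ i, ((n i : ℤ) + 1) * α i : ℤ) : ℝ) = s1 at h1 ⊢
  generalize ((∑ k, (v k : ℤ) : ℤ) : ℝ) = s2 at h1 ⊢
  nlinarith

end Pool.Agent.H172.RP
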