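import Pool.Agent.H172.RP.Ord

/-!
The positive part of pairs with real coefficients.
-/

set_option autoImplicit false
set_option linter.overlappingInstances false
set_option linter.unusedSectionVars false
set_option maxHeartbeats 1000000

open FF MvPolynomial Pool.Agent.W603.LV Pool.Agent.W602.GT Pool.Agent.W602.Cov
open Pool.Agent.TH756.PR Pool.Agent.TH122.AB Pool.Agent.TH756.PN Pool.Agent.Y169.CH
open Pool.Agent.TH152.AC
open Pool.Agent.Y169.TH (dotL dotL_apply)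
open Pool.Agent.H172.EG Pool.Agent.H172.LG

namespace Pool.Agent.H172.RP

variable {r R : ℕ} {n : Fin r → ℕ} {K : Type} [Field K] [Algebra ℂ K] {d : ℕ}
  {e : ((i : Fin r) × Fin (n i)) ≃ Fin (d + 1)} {dF : Fin r → ℕ} (Θ : Nc e dF K R)

/-- the bound without a constant -/
theorem exactR {N : ℕ} {V : Set (Place ℂ K)} {δ : Place ℂ K → ℝ} {P : Place ℂ K} {E c : ℕ}
    {X : ℝ} {D0 : Fin N → Derivation ℂ K K}
    (h : ∀ (m : ℕ) (ω : (Fin N → Derivation ℂ K K) → K),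
      SecP N V δ {1} m ω → ω D0 ≠ 0 → (m : ℝ) * X ≤ E * P.ord (ω D0) + c)
    {m : ℕ} {ω : (Fin N → Derivation ℂ K K) → K} (hω : SecP N V δ {1} m ω)
    (hω0 : ω D0 ≠ 0) : (m : ℝ) * X ≤ E * P.ord (ω D0) := by
  by_contra hcon
  push Not at hcon
  obtain ⟨t, ht⟩ : ∃ t : ℝ, t = (m : ℝ) * X - E * P.ord (ω D0) := ⟨_, rfl⟩
  have ht0 : 0 < t := by
    rw [ht]
    linarith
  obtain ⟨k, hk⟩ := exists_nat_gt ((c : ℝ) / t)
  rw [div_lt_iff₀ ht0] at hk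
  have h1 := h (k * m) (fun Dv => ω Dv ^ k) (secP_pow hω k) (pow_ne_zero _ hω0)
  rw [P.ord_pow] at h1
  push_cast at h1
  have h2 : (k : ℝ) * t ≤ c := by
    rw [ht]
    linarith
  linarith

/-- the change of the frame -/
theorem frameR {Z : Fin (d + 1) → K} (hZ : IsTranscendenceBasis ℂ Z)
    {D0 : Fin (d + 1) → Derivation ℂ K K} (hD : ∀ i j, D0 i (Z j) = if i = j then 1 else 0)
    {P : Place ℂ K} {M E m : ℕ} (hm : 1 ≤ m) {c : Fin M → ℝ} (hc : ∑ σ, c σ = 1)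
    {s : Fin M → (Fin (d + 1) → Derivation ℂ K K) → K} (hs : ∀ σ, IsPluri E (s σ))
    (hs0 : ∀ σ, s σ D0 ≠ 0) {ω : (Fin (d + 1) → Derivation ℂ K K) → K}
    (hω : IsPluri m ω) {C : ℝ}
    (h : ω D0 ≠ 0 → (m : ℝ) * ∑ σ, c σ * P.ord (s σ D0) ≤ E * P.ord (ω D0) + C)
    {Dv : Fin (d + 1) → Derivation ℂ K K} (hDv : ω Dv ≠ 0) :
    (∀ σ, s σ Dv ≠ 0) ∧ (m : ℝ) * ∑ σ, c σ * P.ord (s σ Dv) ≤ E * P.ord (ω Dv) + C := by
  obtain ⟨A, rfl⟩ := EG.exists_mat hZ hD Dv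
  have h1 := hω A D0
  rw [h1] at hDv ⊢
  have hω0 : ω D0 ≠ 0 := right_ne_zero_of_mul hDv
  have hA : A.det ≠ 0 := by
    intro h0
    rw [h0, zero_pow (by omega), zero_mul] at hDv
    exact hDv rfl
  have h2 : ∀ σ, s σ (fun i => ∑ j, A i j • D0 j) = A.det ^ E * s σ D0 := fun σ => hs σ A D0
  refine ⟨fun σ => by rw [h2]; exact mul_ne_zero (pow_ne_zero _ hA) (hs0 σ), ?_⟩
  have h3 : ∀ σ, c σ * (P.ord (s σ (fun i => ∑ j, A i j • D0 j)) : ℝ) =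
      (E * P.ord A.det : ℝ) * c σ + c σ * P.ord (s σ D0) := by
    intro σ
    rw [h2, P.ord_mul (pow_ne_zero _ hA) (hs0 σ), P.ord_pow]
    push_cast
    ring
  rw [Finset.sum_congr rfl fun σ _ => h3 σ, Finset.sum_add_distrib, ← Finset.mul_sum, hc, mul_one,
    P.ord_mul (pow_ne_zero _ hA) hω0, P.ord_pow]
  have h4 := h hω0
  push_cast
  nlinarith

variable {ι : Type} [Fintype ι] {ρ : ι → Fin r → ℕ}

/-- **The positive part for real coefficients.** -/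
theorem topQ (hρ : ∀ s, Prim Θ.C.M Θ.C.a (ρ s)) (hinj : Function.Injective ρ)
    (hunit : ∀ i, ∃ s, ρ s i ≠ 0 ∧ ∀ k, k ≠ i → ρ s k = 0)
    {δ : (Fin r → ℕ) → ℝ} (hδ : ∀ v, δ v ≤ 1) (hoff : ∀ v, (∀ s, ρ s ≠ v) → δ v = 1)
    (hpos : ∀ s, 1 - δ (ρ s) ≤ ∑ i, (((dF i : ℝ) - n i - 1) / dF i) * ρ s i) :
    ∃ (M : ℕ) (c : Fin M → ℝ) (τ : Fin M → (Fin r → ℕ) → ℚ) (E : ℕ), 0 < M ∧ (∀ σ, 0 < c σ) ∧
      ∑ σ, c σ = 1 ∧ (∀ v, δ v = ∑ σ, c σ * τ σ v) ∧ (∀ σ v, τ σ v ≤ 1) ∧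
      (∀ σ v, δ v = 1 → τ σ v = 1) ∧ 1 ≤ E ∧
      ∃ (k : Fin M → ℕ) (s : ∀ σ, Fin (k σ) → (Fin (d + 1) → Derivation ℂ K K) → K),
        (∀ σ, 0 < k σ) ∧ (∃ D0, ∀ σ b, s σ b D0 ≠ 0) ∧
        (∀ σ b, SecP (d + 1) (VT Θ) (dT Θ fun v => (τ σ v : ℝ)) {1} E (s σ b)) ∧
        ∀ P : Place ℂ K, ∃ b : ∀ σ, Fin (k σ),
          (∀ (m : ℕ) (ω : (Fin (d + 1) → Derivation ℂ K K) → K), 1 ≤ m →
            SecP (d + 1) (VT Θ) (dT Θ δ) {1} m ω → ∀ Dv, ω Dv ≠ 0 → (∀ σ, s σ (b σ) Dv ≠ 0) ∧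
              (m : ℝ) * ∑ σ, c σ * P.ord (s σ (b σ) Dv) ≤ E * P.ord (ω Dv)) ∧
          ∀ S : Finset K, ∃ C : ℕ, ∀ (m : ℕ) (ω : (Fin (d + 1) → Derivation ℂ K K) → K), 1 ≤ m →
            SecP (d + 1) (VT Θ) (dT Θ δ) S m ω → ∀ Dv, ω Dv ≠ 0 → (∀ σ, s σ (b σ) Dv ≠ 0) ∧
              (m : ℝ) * ∑ σ, c σ * P.ord (s σ (b σ) Dv) ≤ E * P.ord (ω Dv) + C := by
  classical
  obtain ⟨D0, hD00⟩ := exists_dual Θ.C.hZ
  have hD : ∀ i j, D0 i (Θ.C.Z j) = if i = j then 1 else 0 := by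
    intro i j
    have h1 := congrFun (congrFun hD00 i) j
    rw [Matrix.of_apply, Matrix.one_apply] at h1
    exact h1
  have hom := Θ.om_one hD
  -- the rational decomposition
  obtain ⟨M, c, bq, hM, hc0, hc1, hbr, hsgn, hlp⟩ := real_lp
    (l := fun s k => ((rowr dF ρ s k : ℤ) : ℚ)) (recr_zero (dF := dF) hunit Θ.hdF)
    (rhsR n dF ρ δ) (κ := Fin r ⊕ (ι ⊕ ι))
    (Sum.elim (fun i s' => if s' = Sum.inl i then 1 else 0)
      (Sum.elim (fun s s' => if s' = Sum.inr s then 1 else 0)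
        fun s s' => if s' = Sum.inr s then -1 else 0))
    (Sum.elim (fun i => (dF i : ℚ) - n i - 1) (Sum.elim (fun _ => 0)
      fun s => ∑ i, (((dF i : ℚ) - n i - 1) / dF i) * ρ s i))
  have hsel : ∀ (a : ℚ) (t : Fin r ⊕ ι) (f : Fin r ⊕ ι → ℝ),
      ∑ s', ((if s' = t then a else 0 : ℚ) : ℝ) * f s' = a * f t := by
    intro a t f
    rw [Finset.sum_eq_single t]
    · rw [if_pos rfl]
    · intro s' _ hs'
      rw [if_neg hs', Rat.cast_zero, zero_mul]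
    · intro h
      exact absurd (Finset.mem_univ _) h
  have hselq : ∀ (a : ℚ) (t : Fin r ⊕ ι) (f : Fin r ⊕ ι → ℚ),
      ∑ s', (if s' = t then a else 0 : ℚ) * f s' = a * f t := by
    intro a t f
    rw [Finset.sum_eq_single t]
    · rw [if_pos rfl]
    · intro s' _ hs'
      rw [if_neg hs', zero_mul]
    · intro h
      exact absurd (Finset.mem_univ _) h
  -- the rows of the degrees
  have hb1 : ∀ σ i, bq σ (Sum.inl i) = -((dF i : ℚ) - n i - 1) := by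
    intro σ i
    have h1 := (hsgn (Sum.inl i) σ).2
    simp only [Sum.elim_inl] at h1
    rw [hsel, hselq] at h1
    have h2 := h1 (by
      simp only [rhsR, Sum.elim_inl]
      push_cast
      ring)
    linarith
  have hb2 : ∀ σ s, 0 ≤ bq σ (Sum.inr s) ∧ (δ (ρ s) = 1 → bq σ (Sum.inr s) = 0) := by
    intro σ s
    obtain ⟨h1, h2⟩ := hsgn (Sum.inr (Sum.inl s)) σ
    simp only [Sum.elim_inl, Sum.elim_inr] at h1 h2
    rw [hsel, hselq] at h1 h2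
    refine ⟨?_, fun h3 => ?_⟩
    · have h4 := h1 (by
        simp only [rhsR, Sum.elim_inr]
        push_cast
        linarith [hδ (ρ s)])
      linarith
    · have h4 := h2 (by
        simp only [rhsR, Sum.elim_inr]
        push_cast
        linarith)
      linarith
  have hb3 : ∀ σ s, bq σ (Sum.inr s) ≤ ∑ i, (((dF i : ℚ) - n i - 1) / dF i) * ρ s i := by
    intro σ s
    obtain ⟨h1, -⟩ := hsgn (Sum.inr (Sum.inr s)) σ
    simp only [Sum.elim_inr] at h1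
    rw [hsel, hselq] at h1
    have h4 := h1 (by
      simp only [rhsR, Sum.elim_inr]
      push_cast
      linarith [hpos s])
    linarith
  -- the coefficients
  let τ : Fin M → (Fin r → ℕ) → ℚ := fun σ v =>
    if h : ∃ s, ρ s = v then 1 - bq σ (Sum.inr h.choose) else 1
  have hτρ : ∀ σ s, τ σ (ρ s) = 1 - bq σ (Sum.inr s) := by
    intro σ s
    have hex : ∃ s', ρ s' = ρ s := ⟨s, rfl⟩
    simp only [τ]
    rw [dif_pos hex, hinj hex.choose_spec]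
  have hτoff : ∀ σ v, (∀ s, ρ s ≠ v) → τ σ v = 1 := by
    intro σ v hv
    simp only [τ]
    rw [dif_neg (by push Not; exact hv)]
  have hτ1 : ∀ σ v, τ σ v ≤ 1 := by
    intro σ v
    by_cases hv : ∃ s, ρ s = v
    · obtain ⟨s, rfl⟩ := hv
      rw [hτρ]
      linarith [(hb2 σ s).1]
    · push Not at hv
      rw [hτoff σ v hv]
  have hrhs : ∀ σ, rhsr n dF (fun s => τ σ (ρ s)) 1 = bq σ := by
    intro σ
    funext s
    rcases s with i | s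
    · simp only [rhsr, Sum.elim_inl]
      rw [hb1, one_mul]
    · simp only [rhsr, Sum.elim_inr]
      rw [hτρ]
      ring
  -- the constants
  obtain ⟨B, hB⟩ : ∃ B, B = ∑ i, dF i + ∑ s, ∑ k, ρ s k := ⟨_, rfl⟩
  have hB1 : ∀ k, dF k ≤ B := fun k => by
    have h1 : dF k ≤ ∑ i, dF i := Finset.single_le_sum (fun _ _ => Nat.zero_le _) (Finset.mem_univ k)
    omega
  have hB2 : ∀ s k, ρ s k ≤ B := fun s k => by
    have h1 : ρ s k ≤ ∑ k, ρ s k := Finset.single_le_sum (fun _ _ => Nat.zero_le _)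
      (Finset.mem_univ k)
    have h2 : ∑ k, ρ s k ≤ ∑ s, ∑ k, ρ s k :=
      Finset.single_le_sum (f := fun s => ∑ k, ρ s k) (fun _ _ => Nat.zero_le _) (Finset.mem_univ s)
    omega
  obtain ⟨q, hq⟩ : ∃ q, q = ∏ σ, ∏ s, (τ σ (ρ s)).den := ⟨_, rfl⟩
  have hq0 : 0 < q := by
    rw [hq]
    exact Finset.prod_pos fun σ _ => Finset.prod_pos fun s _ => (τ σ (ρ s)).den_pos
  have hqz : ∀ σ s, ∃ z : ℤ, (q : ℚ) * τ σ (ρ s) = z := by
    intro σ s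
    obtain ⟨a, ha⟩ : (τ σ (ρ s)).den ∣ q := by
      rw [hq]
      exact (Finset.dvd_prod_of_mem (fun s => (τ σ (ρ s)).den) (Finset.mem_univ s)).trans
        (Finset.dvd_prod_of_mem (fun σ => ∏ s, (τ σ (ρ s)).den) (Finset.mem_univ σ))
    refine ⟨a * (τ σ (ρ s)).num, ?_⟩
    have h1 : ((τ σ (ρ s)).den : ℚ) * τ σ (ρ s) = (τ σ (ρ s)).num := by
      rw [mul_comm]
      exact Rat.mul_den_eq_num _
    rw [ha]
    push_cast
    rw [← h1]
    ring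
  obtain ⟨D, hDdef⟩ : ∃ D, D = (r.factorial * B ^ r).factorial := ⟨_, rfl⟩
  have hD0 : 0 < D := by
    rw [hDdef]
    exact Nat.factorial_pos _
  have hDd : ∀ i, 1 ≤ i → i ≤ r.factorial * B ^ r → i ∣ D := by
    intro i hi hi2
    rw [hDdef]
    exact Nat.dvd_factorial hi hi2
  have hE0 : 0 < q * D := Nat.mul_pos hq0 hD0
  -- the lattice points
  have hlat : ∀ σ (u : Fin r → ℚ) (y : Fin r → ℚ),
      y ∈ Pg (fun s k => ((rowr dF ρ s k : ℤ) : ℚ)) (bq σ) →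
      ∃ w : Fin r → ℕ, LatR n dF ρ (fun s => τ σ (ρ s)) (q * D) w ∧
        dotL u (fun k => (w k : ℚ)) ≤ ((q * D : ℕ) : ℚ) * dotL u y := by
    intro σ u y hy
    refine exists_latR hunit Θ.hdF hB1 hB2 hDd (fun s => hτ1 _ _) (hqz σ) u ?_
    unfold Pr
    rw [hrhs]
    exact hy
  have hPne : ∀ σ, (fun i => ((dF i : ℚ) - n i - 1) / dF i) ∈
      Pg (fun s k => ((rowr dF ρ s k : ℤ) : ℚ)) (bq σ) := by
    intro σ
    have h1 := pr_ne (n := n) (dF := dF) (ρ := ρ) (δ := fun s => τ σ (ρ s)) Θ.hdF (fun s => by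
      rw [hτρ]
      linarith [hb3 σ s])
    unfold Pr at h1
    rw [hrhs] at h1
    exact h1
  let W : Fin M → Finset (Fin r → ℕ) := fun σ =>
    (Fintype.piFinset fun i : Fin r => Finset.range (q * D * dF i + 1)).filter
      fun w => LatR n dF ρ (fun s => τ σ (ρ s)) (q * D) w
  have hW : ∀ σ w, w ∈ W σ ↔ LatR n dF ρ (fun s => τ σ (ρ s)) (q * D) w := by
    intro σ w
    simp only [W, Finset.mem_filter, Fintype.mem_piFinset, Finset.mem_range]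
    refine ⟨fun h => h.2, fun h => ⟨fun k => Nat.lt_succ_of_le ?_, h⟩⟩
    have h1 := h.1 k
    have h2 := Nat.le_mul_of_pos_left (w k) (Θ.hdF k)
    omega
  let I : Fin M → Type := fun σ => W σ × (∀ i, Fin (n i + 1))
  let ε : ∀ σ, Fin (Fintype.card (I σ)) ≃ I σ := fun σ => (Fintype.equivFin (I σ)).symm
  refine ⟨M, c, τ, q * D, hM, hc0, hc1, fun v => ?_, hτ1, fun σ v hv => ?_, hE0,
    fun σ => Fintype.card (I σ), fun σ b => Θ.sct (q * D) (ε σ b).1.1 (ε σ b).2,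
    fun σ => ?_, ⟨D0, fun σ b => Θ.sct_ne hom⟩,
    fun σ b => sct_secR Θ (hτoff σ) ((hW σ _).1 (ε σ b).1.2) _, fun P => ?_⟩
  · -- the decomposition
    by_cases hv : ∃ s, ρ s = v
    · obtain ⟨s, rfl⟩ := hv
      have h1 := hbr (Sum.inr s)
      simp only [rhsR, Sum.elim_inr] at h1
      have h2 : ∑ σ, c σ * (τ σ (ρ s) : ℝ) = ∑ σ, (c σ - c σ * (bq σ (Sum.inr s) : ℝ)) := by
        refine Finset.sum_congr rfl fun σ _ => ?_
        rw [hτρ]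
        push_cast
        ring
      rw [h2, Finset.sum_sub_distrib, hc1, ← h1]
      ring
    · push Not at hv
      rw [hoff v hv]
      have h2 : ∑ σ, c σ * (τ σ v : ℝ) = ∑ σ, c σ := by
        refine Finset.sum_congr rfl fun σ _ => ?_
        rw [hτoff σ v hv]
        norm_num
      rw [h2, hc1]
  · by_cases hv' : ∃ s, ρ s = v
    · obtain ⟨s, rfl⟩ := hv'
      rw [hτρ, (hb2 σ s).2 hv, sub_zero]
    · push Not at hv'
      exact hτoff σ v hv'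
  · obtain ⟨w0, hw0, -⟩ := hlat σ 0 _ (hPne σ)
    exact Fintype.card_pos_iff.2 ⟨(⟨w0, (hW σ _).2 hw0⟩, fun _ => 0)⟩
  -- the orders
  obtain ⟨α, v, j, hdat, hα⟩ := Θ.exists_dt P
  obtain ⟨w, y, hw0, hu, hyP, hyv⟩ := hlp (fun k => (v k : ℚ)) ⟨0, hM⟩ ⟨_, hPne _⟩
  choose X hX1 hX2 using fun σ => hlat σ (fun k => (v k : ℚ)) (y σ) (hyP σ)
  obtain ⟨V, hV⟩ : ∃ V : ℝ, V = ∑ σ, c σ * ((∑ k, (v k : ℤ) * X σ k : ℤ) : ℝ) := ⟨_, rfl⟩
  have hVle : V ≤ ((q * D : ℕ) : ℝ) * ∑ s, (w s : ℝ) * rhsR n dF ρ δ s := by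
    have h1 : ∀ σ, ((∑ k, (v k : ℤ) * X σ k : ℤ) : ℝ) ≤
        ((q * D : ℕ) : ℝ) * ∑ s, (w s : ℝ) * (bq σ s : ℝ) := by
      intro σ
      have h2 := hX2 σ
      rw [hyv σ, dotL_apply] at h2
      have h3 := (Rat.cast_le (K := ℝ)).2 h2
      push_cast at h3 ⊢
      exact h3
    have h2 : ∑ s, (w s : ℝ) * rhsR n dF ρ δ s = ∑ σ, c σ * ∑ s, (w s : ℝ) * (bq σ s : ℝ) := by
      simp_rw [Finset.mul_sum]
      rw [Finset.sum_comm]
      refine Finset.sum_congr rfl fun s _ => ?_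
      rw [hbr s, Finset.mul_sum]
      exact Finset.sum_congr rfl fun σ _ => by ring
    rw [hV, h2, Finset.mul_sum]
    refine Finset.sum_le_sum fun σ _ => ?_
    have h3 := mul_le_mul_of_nonneg_left (h1 σ) (hc0 σ).le
    refine h3.trans (le_of_eq ?_)
    ring
  have hee : ∀ σ, ε σ ((ε σ).symm (⟨X σ, (hW σ _).2 (hX1 σ)⟩, j)) =
      (⟨X σ, (hW σ _).2 (hX1 σ)⟩, j) := fun σ => (ε σ).apply_symm_apply _
  have hsum : ∑ σ, c σ * (P.ord (Θ.sct (q * D) (X σ) j D0) : ℝ) =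
      - (((q * D : ℕ) : ℝ) * ((∑ i, ((n i : ℤ) + 1) * α i : ℤ) : ℝ)) + V -
        ((q * D : ℕ) : ℝ) * ((∑ i, (v i : ℤ) : ℤ) : ℝ) := by
    have h1 : ∀ σ, c σ * (P.ord (Θ.sct (q * D) (X σ) j D0) : ℝ) =
        (- (((q * D : ℕ) : ℝ) * ((∑ i, ((n i : ℤ) + 1) * α i : ℤ) : ℝ)) -
          ((q * D : ℕ) : ℝ) * ((∑ i, (v i : ℤ) : ℤ) : ℝ)) * c σ +
          c σ * ((∑ k, (v k : ℤ) * X σ k : ℤ) : ℝ) := by
      intro σ
      rw [sct_ordR Θ (hX1 σ) hom hdat, Int.cast_sub, Int.cast_add, Int.cast_neg, Int.cast_mul,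
        Int.cast_mul, Int.cast_natCast]
      ring
    rw [Finset.sum_congr rfl fun σ _ => h1 σ, Finset.sum_add_distrib, ← Finset.mul_sum, hc1, ← hV]
    ring
  have key := fun S : Finset K => ord_boundQ Θ P S hρ hδ hD hα hdat hw0 hu hE0 hVle
  rw [← hsum] at key
  refine ⟨fun σ => (ε σ).symm (⟨X σ, (hW σ _).2 (hX1 σ)⟩, j), fun m ω hm hω Dv hDv => ?_,
    fun S => ?_⟩
  · simp only [hee]
    obtain ⟨C, hC⟩ := key {1}
    have h1 := frameR Θ.C.hZ hD (P := P) hm hc1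
      (s := fun σ => Θ.sct (q * D) (X σ) j) (fun σ => (sct_secR Θ (hτoff σ) (hX1 σ) j).1)
      (fun σ => Θ.sct_ne hom) hω.1 (C := 0) (fun h0 => by
        rw [add_zero]
        exact exactR hC hω h0) hDv
    rwa [add_zero] at h1
  · simp only [hee]
    obtain ⟨C, hC⟩ := key S
    refine ⟨C, fun m ω hm hω Dv hDv => ?_⟩
    exact frameR Θ.C.hZ hD (P := P) hm hc1
      (s := fun σ => Θ.sct (q * D) (X σ) j) (fun σ => (sct_secR Θ (hτoff σ) (hX1 σ) j).1)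
      (fun σ => Θ.sct_ne hom) hω.1 (fun h0 => hC m ω hω h0) hDv

end Pool.Agent.H172.RP
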